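import Pool.Agent.Q27.TF.Rel

/-!
# Blocks, and the action of `F` on sequences of blocks
-/

namespace Pool.Agent.Q27.TF

/-- blocks: binary trees whose leaves carry numbers -/
inductive Blk where
  | lf : ℕ → Blk
  | nd : Blk → Blk → Blk
deriving DecidableEq

namespace Blk

/-- first part -/
def s1 : Blk → Blk
  | lf a => lf (a + 1)
  | nd A _ => A

/-- second part -/
def s2 : Blk → Blk
  | lf _ => lf 0
  | nd _ B => B

/-- the parts are those of a leaf -/
def rd : Blk → Blk → Bool
  | lf (_ + 1), lf 0 => true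
  | _, _ => false

/-- join -/
def jn (A B : Blk) : Blk :=
  match A, B with
  | lf (a + 1), lf 0 => lf a
  | A, B => nd A B

/-- reduced blocks -/
def ok : Blk → Prop
  | lf _ => True
  | nd A B => ok A ∧ ok B ∧ rd A B = false

theorem jn_rd {A B : Blk} (h : rd A B = false) : jn A B = nd A B := by
  unfold jn
  split
  · simp [rd] at h
  · rfl

theorem rd_iff {A B : Blk} : rd A B = true ↔ ∃ a, A = lf (a + 1) ∧ B = lf 0 := by
  constructor
  · intro h
    unfold rd at h
    split at h
    · exact ⟨_, rfl, rfl⟩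
    · simp at h
  · rintro ⟨a, rfl, rfl⟩; rfl

theorem s1_jn (A B : Blk) : s1 (jn A B) = A := by
  by_cases h : rd A B = true
  · obtain ⟨a, rfl, rfl⟩ := rd_iff.1 h
    rfl
  · rw [jn_rd (by simpa using h)]; rfl

theorem s2_jn (A B : Blk) : s2 (jn A B) = B := by
  by_cases h : rd A B = true
  · obtain ⟨a, rfl, rfl⟩ := rd_iff.1 h
    rfl
  · rw [jn_rd (by simpa using h)]; rfl

theorem jn_s {B : Blk} (h : B.ok) : jn (s1 B) (s2 B) = B := by
  cases B with
  | lf a => rfl
  | nd A B =>
    obtain ⟨-, -, h3⟩ := h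
    exact jn_rd h3

theorem ok_s1 {B : Blk} (h : B.ok) : (s1 B).ok := by
  cases B with
  | lf a => trivial
  | nd A B => exact h.1

theorem ok_s2 {B : Blk} (h : B.ok) : (s2 B).ok := by
  cases B with
  | lf a => trivial
  | nd A B => exact h.2.1

theorem ok_jn {A B : Blk} (hA : A.ok) (hB : B.ok) : (jn A B).ok := by
  by_cases h : rd A B = true
  · obtain ⟨a, rfl, rfl⟩ := rd_iff.1 h
    trivial
  · rw [jn_rd (by simpa using h)]
    exact ⟨hA, hB, by simpa using h⟩

end Blk

/-- reduced blocks -/
abbrev RB : Type := {B : Blk // B.ok}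

/-- sequences of reduced blocks -/
abbrev Om : Type := ℕ → RB

/-- split the block `k` -/
def spl (k : ℕ) (ω : Om) (i : ℕ) : RB :=
  if i < k then ω i else if i = k then ⟨(ω k).1.s1, Blk.ok_s1 (ω k).2⟩
    else if i = k + 1 then ⟨(ω k).1.s2, Blk.ok_s2 (ω k).2⟩ else ω (i - 1)

/-- join the blocks `k` and `k + 1` -/
def joi (k : ℕ) (ω : Om) (i : ℕ) : RB :=
  if i < k then ω i else if i = k then ⟨(ω k).1.jn (ω (k + 1)).1, Blk.ok_jn (ω k).2 (ω (k + 1)).2⟩
    else ω (i + 1)

theorem spl_lt {k : ℕ} {ω : Om} {i : ℕ} (h : i < k) : spl k ω i = ω i := by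
  unfold spl; rw [if_pos h]

theorem spl_eq {k : ℕ} {ω : Om} : spl k ω k = ⟨(ω k).1.s1, Blk.ok_s1 (ω k).2⟩ := by
  unfold spl; rw [if_neg (by omega), if_pos rfl]

theorem spl_succ {k : ℕ} {ω : Om} : spl k ω (k + 1) = ⟨(ω k).1.s2, Blk.ok_s2 (ω k).2⟩ := by
  unfold spl; rw [if_neg (by omega), if_neg (by omega), if_pos rfl]

theorem spl_gt {k : ℕ} {ω : Om} {i : ℕ} (h : k + 1 < i) : spl k ω i = ω (i - 1) := by
  unfold spl; rw [if_neg (by omega), if_neg (by omega), if_neg (by omega)]

theorem joi_lt {k : ℕ} {ω : Om} {i : ℕ} (h : i < k) : joi k ω i = ω i := by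
  unfold joi; rw [if_pos h]

theorem joi_eq {k : ℕ} {ω : Om} :
    joi k ω k = ⟨(ω k).1.jn (ω (k + 1)).1, Blk.ok_jn (ω k).2 (ω (k + 1)).2⟩ := by
  unfold joi; rw [if_neg (by omega), if_pos rfl]

theorem joi_gt {k : ℕ} {ω : Om} {i : ℕ} (h : k < i) : joi k ω i = ω (i + 1) := by
  unfold joi; rw [if_neg (by omega), if_neg (by omega)]

/-- the permutation of the sequences -/
def ek (k : ℕ) : Equiv.Perm Om where
  toFun := spl k
  invFun := joi k
  left_inv ω := by
    funext i
    rcases lt_trichotomy i k with h | h | h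
    · rw [joi_lt h, spl_lt h]
    · subst h
      apply Subtype.ext
      rw [joi_eq]
      simp only [spl_eq, spl_succ]
      exact Blk.jn_s (ω i).2
    · rw [joi_gt h, spl_gt (by omega), Nat.add_sub_cancel]
  right_inv ω := by
    funext i
    rcases lt_trichotomy i k with h | h | h
    · rw [spl_lt h, joi_lt h]
    · subst h
      apply Subtype.ext
      rw [spl_eq]
      simp only [joi_eq]
      exact Blk.s1_jn _ _
    · rcases Nat.lt_or_ge (k + 1) i with h' | h'
      · rw [spl_gt h', joi_gt (by omega)]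
        congr 1; omega
      · have : i = k + 1 := by omega
        subst this
        apply Subtype.ext
        rw [spl_succ]
        simp only [joi_eq]
        exact Blk.s2_jn _ _

theorem spl_spl {k n : ℕ} (h : k < n) (ω : Om) : spl k (spl n ω) = spl (n + 1) (spl k ω) := by
  funext i
  apply Subtype.ext
  unfold spl
  by_cases h1 : i < k
  · simp [h1, show i < n by omega, show i < n + 1 by omega]
  · by_cases h2 : i = k
    · subst h2
      simp [h, show i < n + 1 by omega]
    · by_cases h3 : i = k + 1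
      · subst h3
        have a1 : ¬ (k + 1 < k) := by omega
        have a2 : k + 1 < n + 1 := by omega
        simp [h, a2]
      · have a1 : ¬ (i - 1 < k) := by omega
        simp only [h1, h2, h3, if_false]
        by_cases h4 : i < n + 1
        · have a2 : i - 1 < n := by omega
          simp [h4, a2]
        · by_cases h5 : i = n + 1
          · subst h5
            have a3 : ¬ (n + 1 < k) := by omega
            have a4 : ¬ (n + 1 = k) := by omega
            have a5 : ¬ (n = k) := by omega
            simp [a3, a4, a5]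
          · by_cases h6 : i = n + 2
            · subst h6
              have a3 : ¬ (n + 1 < k) := by omega
              have a4 : ¬ (n + 1 = k) := by omega
              have a5 : ¬ (n = k) := by omega
              simp [a3, a4, a5]
            · have b1 : ¬ (i - 1 < n) := by omega
              have b2 : ¬ (i - 1 = n) := by omega
              have b3 : ¬ (i - 1 = n + 1) := by omega
              have b4 : ¬ (i = n + 1 + 1) := by omega
              have b5 : ¬ (i - 1 = k) := by omega
              have b6 : ¬ (i - 1 = k + 1) := by omega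
              simp [h4, h5, b1, b2, b3, b4, b5, b6, a1]

/-- the elements of the opposite group -/
def Ek (k : ℕ) : (Equiv.Perm Om)ᵐᵒᵖ := MulOpposite.op (ek k)

theorem Ek_rel (k n : ℕ) (h : k < n) : Ek n * Ek k = Ek k * Ek (n + 1) := by
  unfold Ek
  rw [← MulOpposite.op_mul, ← MulOpposite.op_mul]
  congr 1
  apply Equiv.ext
  intro ω
  exact spl_spl h ω

/-- the action of `F` from the right -/
def Phi : F →* (Equiv.Perm Om)ᵐᵒᵖ := PresentedGroup.toGroup (rels_of Ek Ek_rel)

theorem Phi_x0 : Phi (x 0) = Ek 0 := by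
  show Phi (PresentedGroup.of 0) = _
  unfold Phi
  rw [PresentedGroup.toGroup.of]; rfl

theorem Phi_x1 : Phi (x 1) = Ek 1 := by
  have hb : x 1 = PresentedGroup.of 1 := by show Y 0 = _; simp [Y, b]
  rw [hb]
  unfold Phi
  rw [PresentedGroup.toGroup.of]; rfl

/-- the trivial sequence -/
def base : Om := fun _ => ⟨.lf 0, trivial⟩

/-- the normal form of an element: the image of the trivial sequence -/
def nf (g : F) : Om := (Phi g).unop base

theorem nf_one : nf 1 = base := by unfold nf; simp

theorem nf_mul (g : F) (j : ℕ) (hj : j < 2) : nf (g * x j) = spl j (nf g) := by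
  unfold nf
  rw [map_mul, MulOpposite.unop_mul, Equiv.Perm.mul_apply]
  interval_cases j
  · rw [Phi_x0]; rfl
  · rw [Phi_x1]; rfl

theorem nf_mul_inv (g : F) (j : ℕ) (hj : j < 2) : nf (g * (x j)⁻¹) = joi j (nf g) := by
  have h := nf_mul (g * (x j)⁻¹) j hj
  rw [inv_mul_cancel_right] at h
  rw [h]
  exact ((ek j).left_inv _).symm

end Pool.Agent.Q27.TF
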