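import Pool.Agent.Q27.TF.Val
import Pool.Agent.Q27.LT.Consts

/-!
# Entries of blocks
-/

namespace Pool.Agent.Q27.TF

open Pool.Agent.Q27.LT

instance : Finite Lt := Finite.of_injective (fun l : Lt => match l with
  | .o => (0 : Fin 3) | .b => 1 | .d => 2) (by intro a b; cases a <;> cases b <;> simp)

instance : Inhabited Lt := ⟨.d⟩

/-- the entries of a block: numbers of left turns, letters -/
def ents : ℕ → Blk → List (ℕ × Lt)
  | h, .lf a => List.replicate a (h, .b) ++ [(h, .d)]
  | h, .nd A B => (h, .o) :: (ents (h + 1) A ++ ents h B)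

/-- the entries of a list of blocks -/
def fl (bs : List Blk) : List (ℕ × Lt) := bs.flatMap (ents 0)

theorem fl_cons (B : Blk) (bs : List Blk) : fl (B :: bs) = ents 0 B ++ fl bs := rfl

theorem fl_append (as bs : List Blk) : fl (as ++ bs) = fl as ++ fl bs := by
  simp [fl]

theorem ents_snd (h : ℕ) (B : Blk) : (ents h B).map Prod.snd = wd B := by
  induction B generalizing h with
  | lf a => simp [ents, wd]
  | nd A B h1 h2 => simp [ents, wd, h1, h2]

theorem fl_snd (bs : List Blk) : (fl bs).map Prod.snd = wl bs := by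
  induction bs with
  | nil => rfl
  | cons B bs ih =>
    rw [fl_cons, List.map_append, ih, ents_snd]; rfl

theorem ents_last (h : ℕ) (B : Blk) : ∃ E, ents h B = E ++ [(h, .d)] := by
  induction B generalizing h with
  | lf a => exact ⟨_, rfl⟩
  | nd A B h1 h2 =>
    obtain ⟨E, hE⟩ := h2 h
    exact ⟨(h, .o) :: (ents (h + 1) A ++ E), by simp [ents, hE]⟩

theorem ents_head (h : ℕ) (B : Blk) : ∃ l E, ents h B = (h, l) :: E := by
  cases B with
  | lf a =>
    cases a with
    | zero => exact ⟨.d, [], rfl⟩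
    | succ a => exact ⟨.b, List.replicate a (h, .b) ++ [(h, .d)], by
        simp only [ents, List.replicate_succ, List.cons_append]⟩
  | nd A B => exact ⟨.o, _, rfl⟩

theorem ents_ne (h : ℕ) (B : Blk) : ents h B ≠ [] := by
  obtain ⟨l, E, hE⟩ := ents_head h B
  rw [hE]; simp

/-- Lipschitz lists -/
def Nr (L : List (ℕ × Lt)) : Prop := List.IsChain (fun a b => a.1 ≤ b.1 + 1 ∧ b.1 ≤ a.1 + 1) L

theorem nr_append {L M : List (ℕ × Lt)} (hL : Nr L) (hM : Nr M)
    (h : ∀ x ∈ L.getLast?, ∀ y ∈ M.head?, x.1 ≤ y.1 + 1 ∧ y.1 ≤ x.1 + 1) : Nr (L ++ M) := by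
  unfold Nr
  rw [List.isChain_append]
  exact ⟨hL, hM, h⟩

theorem ents_nr (h : ℕ) (B : Blk) : Nr (ents h B) := by
  induction B generalizing h with
  | lf a =>
    unfold Nr ents
    rw [List.isChain_append]
    refine ⟨?_, by simp, ?_⟩
    · induction a with
      | zero => simp
      | succ a ih =>
        rw [List.replicate_succ, List.isChain_cons]
        refine ⟨fun y hy => ?_, ih⟩
        cases a with
        | zero => simp at hy
        | succ a => simp only [List.replicate_succ, List.head?_cons, Option.mem_def,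
            Option.some.injEq] at hy; subst hy; simp
    · intro x hx y hy
      simp at hy
      subst hy
      cases a with
      | zero => simp at hx
      | succ a =>
        simp [List.getLast?_replicate] at hx
        subst hx; simp
  | nd A B h1 h2 =>
    unfold ents
    show List.IsChain _ _
    rw [List.isChain_cons]
    obtain ⟨l, E, hE⟩ := ents_head (h + 1) A
    obtain ⟨E', hE'⟩ := ents_last (h + 1) A
    obtain ⟨l'', E'', hE''⟩ := ents_head h B
    refine ⟨fun y hy => ?_, nr_append (h1 (h + 1)) (h2 h) (fun x hx y hy => ?_)⟩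
    · rw [hE] at hy
      simp at hy
      subst hy
      constructor
      · show h ≤ h + 1 + 1
        omega
      · exact le_refl _
    · rw [hE'] at hx
      rw [hE''] at hy
      simp at hx hy
      subst hx hy
      constructor
      · exact le_refl _
      · show h ≤ h + 1 + 1
        omega

theorem fl_head {bs : List Blk} {y : ℕ × Lt} (h : y ∈ (fl bs).head?) : y.1 = 0 := by
  cases bs with
  | nil => simp [fl] at h
  | cons B bs =>
    rw [fl_cons] at h
    obtain ⟨l, E, hE⟩ := ents_head 0 B
    rw [hE] at h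
    simp at h
    rw [← h]

theorem fl_last {bs : List Blk} (h : bs ≠ []) : ∃ E, fl bs = E ++ [(0, .d)] := by
  obtain ⟨cs, B, rfl⟩ : ∃ cs B, bs = cs ++ [B] := ⟨bs.dropLast, bs.getLast h,
    (List.dropLast_append_getLast h).symm⟩
  obtain ⟨E, hE⟩ := ents_last 0 B
  refine ⟨fl cs ++ E, ?_⟩
  rw [fl_append]
  simp [fl, hE]

theorem fl_nr (bs : List Blk) : Nr (fl bs) := by
  induction bs with
  | nil => simp [fl, Nr]
  | cons B bs ih =>
    rw [fl_cons]
    refine nr_append (ents_nr 0 B) ih (fun x hx y hy => ?_)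
    obtain ⟨E, hE⟩ := ents_last 0 B
    rw [hE] at hx
    simp at hx
    have := fl_head hy
    rw [← hx]
    simp [this]

theorem fl_good {bs : List Blk} (h : bs ≠ []) : Good (fl bs) where
  ne := by obtain ⟨E, hE⟩ := fl_last h; rw [hE]; simp
  ch := fl_nr bs
  small := by
    obtain ⟨E, hE⟩ := fl_last h
    simp only [hE, List.getLast_append_singleton]
    omega

/-- one more left turn -/
def up (a : ℕ × Lt) : ℕ × Lt := (a.1 + 1, a.2)

theorem ents_up (h : ℕ) (B : Blk) : ents (h + 1) B = (ents h B).map up := by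
  induction B generalizing h with
  | lf a => simp [ents, up]
  | nd A B h1 h2 =>
    rw [ents, ents, h1, h2]
    simp [up]

theorem ents_ge {h : ℕ} {B : Blk} {y : ℕ × Lt} (hy : y ∈ ents h B) : h ≤ y.1 := by
  induction B generalizing h with
  | lf a =>
    simp [ents] at hy
    rcases hy with ⟨-, rfl⟩ | rfl <;> simp
  | nd A B h1 h2 =>
    simp only [ents, List.mem_cons, List.mem_append] at hy
    rcases hy with rfl | hy | hy
    · exact le_refl _
    · have := h1 hy; omega
    · exact h2 hy

/-- the last cell of a block -/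
abbrev ed : ℕ × Lt := (0, .d)

/-- number of last cells -/
def ct (L : List (ℕ × Lt)) : ℕ := L.countP (fun a => decide (a = ed))

theorem ct_append (L M : List (ℕ × Lt)) : ct (L ++ M) = ct L + ct M := by
  unfold ct; exact List.countP_append

theorem ct_up (h : ℕ) (B : Blk) : ct (ents (h + 1) B) = 0 := by
  unfold ct
  rw [List.countP_eq_zero]
  intro y hy h1
  have := ents_ge hy
  simp only [decide_eq_true_eq] at h1
  rw [h1] at this
  simp at this

theorem ct_zero (B : Blk) : ∃ E, ents 0 B = E ++ [ed] ∧ ct E = 0 := by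
  induction B with
  | lf a =>
    refine ⟨_, rfl, ?_⟩
    unfold ct
    rw [List.countP_eq_zero]
    intro y hy h1
    simp only [decide_eq_true_eq] at h1
    rw [List.mem_replicate] at hy
    rw [hy.2] at h1
    simp at h1
  | nd A B h1 h2 =>
    obtain ⟨E, hE, h3⟩ := h2
    refine ⟨(0, .o) :: (ents 1 A ++ E), by simp [ents, hE], ?_⟩
    have e : ((0, Lt.o) :: (ents 1 A ++ E)) = [(0, Lt.o)] ++ (ents 1 A ++ E) := rfl
    rw [e, ct_append, ct_append, ct_up, h3]
    rfl

/-- lists that end with the last cell of the block with the number `j - 1` -/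
def Cut (j : ℕ) (u : List (ℕ × Lt)) : Prop :=
  (j = 0 ∧ u = []) ∨ ∃ E, u = E ++ [ed] ∧ ct E + 1 = j

theorem Cut.cnt {j : ℕ} {u : List (ℕ × Lt)} (h : Cut j u) : ct u = j := by
  rcases h with ⟨rfl, rfl⟩ | ⟨E, rfl, h⟩
  · rfl
  · rw [ct_append, ← h]; rfl

theorem Cut.blk {j : ℕ} {u : List (ℕ × Lt)} (h : Cut j u) (B : Blk) : Cut (j + 1) (u ++ ents 0 B) := by
  obtain ⟨E, hE, h1⟩ := ct_zero B
  right
  refine ⟨u ++ E, by rw [hE]; simp, ?_⟩
  rw [ct_append, h.cnt, h1]

theorem Cut.blk' {j : ℕ} {u : List (ℕ × Lt)} (h : Cut j u) (B : Blk) :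
    Cut (j + 1) (u ++ (0, .o) :: ents 0 B) := by
  obtain ⟨E, hE, h1⟩ := ct_zero B
  right
  refine ⟨u ++ (0, .o) :: E, by rw [hE]; simp, ?_⟩
  have e : u ++ (0, Lt.o) :: E = u ++ ([(0, Lt.o)] ++ E) := rfl
  rw [e, ct_append, ct_append, h.cnt, h1]
  rfl

theorem cut_fl (bs : List Blk) : Cut bs.length (fl bs) := by
  induction bs using List.reverseRecOn with
  | nil => left; exact ⟨rfl, rfl⟩
  | append_singleton bs B ih =>
    rw [fl_append, List.length_append]
    have := ih.blk B
    have e : fl [B] = ents 0 B := by simp [fl]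
    rw [e]
    exact this

/-- the number of last cells before the index -/
def cs (L : List (ℕ × Lt)) (i : ℕ) : ℕ := ct (L.take i)

theorem cs_mono (L : List (ℕ × Lt)) {i i' : ℕ} (h : i ≤ i') : cs L i ≤ cs L i' := by
  unfold cs ct
  exact List.Sublist.countP_le (List.take_sublist_take_left h)

theorem Cut.thr {j : ℕ} {u : List (ℕ × Lt)} (h : Cut j u) (v : List (ℕ × Lt)) (i : ℕ) :
    j ≤ cs (u ++ v) i ↔ u.length ≤ i := by
  constructor
  · intro h1
    by_contra h2
    rcases h with ⟨rfl, rfl⟩ | ⟨E, rfl, h⟩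
    · simp at h2
    · rw [List.length_append, List.length_singleton] at h2
      have h3 : cs (E ++ [ed] ++ v) i ≤ ct E := by
        refine (cs_mono _ (show i ≤ E.length by omega)).trans ?_
        unfold cs
        rw [List.append_assoc, List.take_left]
      omega
  · intro h1
    refine le_trans ?_ (cs_mono _ h1)
    unfold cs
    rw [List.take_left, h.cnt]

end Pool.Agent.Q27.TF
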