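import Pool.Agent.Q27.TF.Norm
import Pool.Agent.Q27.LT.Tm
import Pool.Agent.Q27.LT.Conv
import Pool.Agent.Q154.LT.Machine
import Pool.Agent.Q195.LT.Comp
import Pool.Agent.Q195.LT.Lintime
import Pool.Agent.Q102.LT.ROUNDS
import Pool.Agent.Q53.LT.Round
import Pool.Agent.Q96.LT.AutoF
import Pool.Agent.Q96.LT.Graph
import Pool.Agent.Q96.LT.Pad

/-!
# Thompson's group `F` is Cayley linear-time computable
-/

namespace Pool.Agent.Q27.TF

open Pool.Agent.Q27.LT

theorem lintime : S_lintime :=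
  Q195.LT.s_lintime Q102.LT.ROUNDS.s_rounds s_round Q195.LT.s_comp Q154.LT.t_MACHINE

theorem auto : S_auto := Q96.LT.s_auto Q96.LT.s_graph Q96.LT.s_pad

/-- the normal form and the multiplication functions -/
theorem cayley : ∃ (A : Type) (_ : Finite A) (L : Set (List A)) (ψ : L ≃ F), ∀ g : F,
    ∃ f : List A → List A, Automatic f ∧ LinTime f ∧
      ∀ w : L, ∃ h : f w ∈ L, ψ ⟨f w, h⟩ = ψ w * g := by
  let e : F ≃ Set.range (fun g : F => enc (tape' g)) := Equiv.ofInjective _ enc_inj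
  refine ⟨TS Lt, inferInstance, Set.range (fun g : F => enc (tape' g)), e.symm, fun g => ?_⟩
  obtain ⟨f, hf, h⟩ := sweep_mul g
  refine ⟨f, auto _ _ inferInstance inferInstance f hf, lintime _ inferInstance f hf, ?_⟩
  rintro ⟨w, s, rfl⟩
  refine ⟨⟨s * g, (h s).symm⟩, ?_⟩
  have h1 : e.symm ⟨enc (tape' s), s, rfl⟩ = s := by
    rw [Equiv.symm_apply_eq]; rfl
  have h2 : ∀ hm, e.symm ⟨f (enc (tape' s)), hm⟩ = s * g := by
    intro hm
    rw [Equiv.symm_apply_eq]
    exact Subtype.ext (h s)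
  exact (h2 _).trans (congrArg (fun t => t * g) h1.symm)

theorem gen_finite : Subgroup.closure {PresentedGroup.of 0, PresentedGroup.of 1} = (⊤ : Subgroup F) := by
  have h := closure_gen
  have h1 : x 1 = PresentedGroup.of 1 := by show Y 0 = _; simp [Y, b]
  rw [h1] at h
  exact h

end Pool.Agent.Q27.TF
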