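import Mathlib

/-!
# Thompson's group `F`
-/

namespace Pool.Agent.Q27.TF

/-- the commutator `x y x⁻¹ y⁻¹` -/
def cm {G : Type} [Group G] (x y : G) : G := x * y * x⁻¹ * y⁻¹

/-- The relators `[x₀ x₁⁻¹, x₀⁻¹ x₁ x₀]` and `[x₀ x₁⁻¹, x₀⁻² x₁ x₀²]` of Thompson's group `F`. -/
def rels : Set (FreeGroup (Fin 2)) :=
  {cm (FreeGroup.of 0 * (FreeGroup.of 1)⁻¹)
      ((FreeGroup.of 0)⁻¹ * FreeGroup.of 1 * FreeGroup.of 0),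
    cm (FreeGroup.of 0 * (FreeGroup.of 1)⁻¹)
      ((FreeGroup.of 0)⁻¹ * (FreeGroup.of 0)⁻¹ * FreeGroup.of 1 * FreeGroup.of 0 * FreeGroup.of 0)}

/-- Thompson's group `F = ⟨x₀, x₁ | [x₀ x₁⁻¹, x₀⁻¹ x₁ x₀], [x₀ x₁⁻¹, x₀⁻² x₁ x₀²]⟩` -/
abbrev F : Type := PresentedGroup rels

end Pool.Agent.Q27.TF
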