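import Pool.Agent.Q27.TF.Ops

/-!
# The moves
-/

namespace Pool.Agent.Q27.TF

open Pool.Agent.Q27.LT

/-- the block is a node -/
def isn : Blk → Bool
  | .lf _ => false
  | .nd _ _ => true

theorem isn_iff (B : Blk) : isn B = true ↔ ∃ a ∈ ents 0 B, a.2 = .o := by
  cases B with
  | lf a =>
    simp only [isn, Bool.false_eq_true, false_iff, not_exists, not_and]
    intro y hy
    simp only [ents, List.mem_append, List.mem_replicate, List.mem_singleton] at hy
    rcases hy with ⟨-, rfl⟩ | rfl <;> simp
  | nd A B => simp [isn, ents]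

theorem rd_iff' (A B : Blk) : Blk.rd A B = true ↔ (∃ a ∈ ents 0 A, a.2 = .b) ∧
    ¬ (∃ a ∈ ents 0 A, a.2 = .o) ∧ ¬ (∃ a ∈ ents 0 B, a.2 ≠ .d) := by
  rw [Blk.rd_iff, ← isn_iff A]
  constructor
  · rintro ⟨a, rfl, rfl⟩
    refine ⟨⟨(0, .b), by simp [ents], rfl⟩, by simp [isn], ?_⟩
    rintro ⟨y, hy, h⟩
    simp only [ents, List.mem_append, List.mem_replicate, List.mem_singleton] at hy
    rcases hy with ⟨h1, -⟩ | rfl
    · exact h1 rfl
    · exact h rfl
  · rintro ⟨h1, h2, h3⟩
    cases A with
    | nd A A' => exact absurd rfl h2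
    | lf a =>
      cases a with
      | zero =>
        obtain ⟨y, hy, h⟩ := h1
        simp [ents] at hy
        rw [hy] at h; simp at h
      | succ a =>
        refine ⟨a, rfl, ?_⟩
        cases B with
        | nd B B' => exact absurd ⟨(0, .o), by simp [ents], by simp⟩ h3
        | lf c =>
          cases c with
          | zero => rfl
          | succ c => exact absurd ⟨(0, .b), by simp [ents], by simp⟩ h3

theorem fl_ne {bs : List Blk} (h : bs ≠ []) : fl bs ≠ [] := (fl_good h).ne

theorem fl_cons_ex {bs : List Blk} (h : bs ≠ []) : ∃ b M, fl bs = b :: M ∧ b.1 = 0 := by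
  obtain ⟨b, M, hb⟩ := List.exists_cons_of_ne_nil (fl_ne h)
  exact ⟨b, M, hb, fl_head (by rw [hb]; simp)⟩

section
variable {ι K : Type} [Finite K] [Inhabited K] {κ : ι → K}

omit [Finite K] [Inhabited K] in
/-- properties of the letters of a block -/
theorem dl_blk {L : ι → List (ℕ × Lt)} (hL : ∀ s, Good (L s)) (j : ℕ) (hj : j ≤ 2)
    {u v : ι → List (ℕ × Lt)} {B : ι → Blk} (hu : ∀ s, Cut j (u s))
    (h : ∀ s, L s = u s ++ (ents 0 (B s) ++ v s)) (Q : Lt → Bool) :
    DL L (fun s _ => decide (∃ a ∈ ents 0 (B s), Q a.2 = true)) := by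
  have t1 := dl_cs0 hL j (by omega)
  have t2 := dl_cs0 hL (j + 1) (by omega)
  refine (((t1.pair t2).pair (dl_pay L)).map (fun a => a.1.1 && !a.1.2 && Q a.2)).any.congr
    (fun s i _ => ?_)
  rw [decide_eq_decide]
  have c1 := fun i => (hu s).thr (ents 0 (B s) ++ v s) i
  have c2 := fun i => ((hu s).blk (B s)).thr (v s) i
  simp only [List.append_assoc] at c2
  simp only [← h s] at c1 c2
  constructor
  · rintro ⟨i, h1, h2⟩
    simp only [Bool.and_eq_true, Bool.not_eq_true', decide_eq_true_eq, decide_eq_false_iff_not,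
      c1, c2, List.length_append] at h2
    obtain ⟨⟨h3, h4⟩, h5⟩ := h2
    refine ⟨(ents 0 (B s))[i - (u s).length]'(by omega), List.getElem_mem _, ?_⟩
    unfold pp at h5
    rw [h s, gx_append_right h3 (by simp [ents_ne]), gx_append_left (by omega)] at h5
    exact h5
  · rintro ⟨a, h1, h2⟩
    obtain ⟨i, h3, h4⟩ := List.getElem_of_mem h1
    refine ⟨(u s).length + i, ?_, ?_⟩
    · rw [h s]; simp; omega
    · simp only [Bool.and_eq_true, Bool.not_eq_true', decide_eq_true_eq, decide_eq_false_iff_not,
        c1, c2, List.length_append]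
      refine ⟨⟨by omega, by omega⟩, ?_⟩
      unfold pp
      rw [h s, gx_append_right (by omega) (by simp [ents_ne]), gx_append_left (by omega)]
      simp only [Nat.add_sub_cancel_left, h4]
      exact h2

end

section
variable {ι : Type}

theorem dec_split {K : Type} (κ : K) (A B : List (ℕ × Lt)) (b : ℕ × Lt) :
    dec κ (A ++ b :: B) = dec κ A ++ (b.1, b.2, κ) :: dec κ B := by simp [dec]

/-- **Splitting a block.** -/
theorem rl_split (j : ℕ) (hj : j ≤ 1) {pre post : ι → List Blk} {B : ι → Blk}
    (hpre : ∀ s, (pre s).length = j) (hpost : ∀ s, post s ≠ []) :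
    RL (fun s => fl (pre s ++ B s :: post s))
      (fun s => fl (pre s ++ (B s).s1 :: (B s).s2 :: post s)) := by
  -- the control data
  let κ : ι → Bool := fun s => isn (B s)
  have hcut : ∀ s, Cut j (fl (pre s)) := fun s => by
    have := cut_fl (pre s); rwa [hpre s] at this
  have g0 : ∀ s, Good (fl (pre s ++ B s :: post s)) := fun s => fl_good (by simp)
  have r0 : RL (fun s => fl (pre s ++ B s :: post s))
      (fun s => dec (κ s) (fl (pre s ++ B s :: post s))) := by
    refine RL.dec g0 ?_
    refine (dl_blk g0 j (by omega) hcut (B := B) (v := fun s => fl (post s))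
      (fun s => by rw [fl_append, fl_cons]) (fun l => decide (l = .o))).congr (fun s i _ => ?_)
    simp only [κ]
    rw [Bool.eq_iff_iff, decide_eq_true_iff, isn_iff]
    simp
  -- the segments
  let U : ι → List (ℕ × Lt) := fun s => fl (pre s) ++ (if isn (B s) then [(0, .o)] else [])
  let E : ι → List (ℕ × Lt) := fun s => if isn (B s) then ents 0 (B s).s1 else []
  let V : ι → List (ℕ × Lt) := fun s =>
    (if isn (B s) then ents 0 (B s).s2 else ents 0 (B s)) ++ fl (post s)
  have hV : ∀ s, V s ≠ [] := fun s => by simp only [V]; simp [fl_ne (hpost s)]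
  have e0 : ∀ s, fl (pre s ++ B s :: post s) = U s ++ ((E s).map up ++ V s) := by
    intro s
    rw [fl_append, fl_cons]
    simp only [U, E, V]
    cases hB : B s with
    | lf a => simp [isn]
    | nd A B' =>
      simp only [isn, if_true, Blk.s1, Blk.s2]
      rw [← ents_up]
      simp [ents]
  have e2 : ∀ s, isn (B s) = true → U s ++ (E s ++ V s) = fl (pre s) ++ (0, .o) ::
      fl ((B s).s1 :: (B s).s2 :: post s) := by
    intro s hs
    simp only [U, E, V, hs, if_true]
    simp [fl_cons]
  have g1 : ∀ s, Good (U s ++ (E s ++ V s)) := by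
    intro s
    by_cases hs : isn (B s) = true
    · rw [e2 s hs]
      obtain ⟨b, M, hb, hb0⟩ := fl_cons_ex (bs := (B s).s1 :: (B s).s2 :: post s) (by simp)
      have h1 : Good (fl (pre s ++ (B s).s1 :: (B s).s2 :: post s)) := fl_good (by simp)
      rw [fl_append, hb] at h1
      rw [hb]
      exact h1.insert hb0.symm
    · have h1 := e0 s
      simp only [E, hs] at h1 ⊢
      have := g0 s
      rw [h1] at this
      simpa using this
  have g0' : ∀ s, Good (U s ++ ((E s).map up ++ V s)) := fun s => by rw [← e0 s]; exact g0 s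
  have r1 : RL (fun s => dec (κ s) (fl (pre s ++ B s :: post s)))
      (fun s => dec (κ s) (U s ++ (E s ++ V s))) := by
    simp only [e0]
    refine rl_down hV g0' g1 ?_
    have hthr := dl_thr (κ := κ) g0' j (by omega) (u := fun s => fl (pre s))
      (v := fun s => ents 0 (B s) ++ fl (post s)) hcut
      (fun s => by rw [← e0 s, fl_append, fl_cons])
    have hreg := dl_region (κ := κ) (φ := κ) g0' (u := fun s => fl (pre s))
      (E := fun s => (E s).map up) (W := V) (dl_con g0') hthr (fun s hs => ?_)
    · refine hreg.congr (fun s i _ => ?_)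
      rw [decide_eq_decide]
      simp only [U, List.length_append, List.length_map, κ]
      by_cases hs : isn (B s) = true
      · simp [hs]
      · simp [hs, E]
    · have hs' : isn (B s) = true := hs
      refine ⟨?_, ?_, ?_, hV s⟩
      · simp only [U, hs', if_true]; simp
      · intro y hy
        rw [List.mem_map] at hy
        obtain ⟨z, -, rfl⟩ := hy
        simp [up]
      · intro y hy
        simp only [V, hs', if_true] at hy
        obtain ⟨l, E', hE'⟩ := ents_head 0 (B s).s2
        rw [hE'] at hy
        simp at hy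
        rw [← hy]
  -- deletion of the bracket
  let cb : ι → List Blk := fun s => if isn (B s) then pre s ++ (B s).s1 :: (B s).s2 :: post s
    else pre s ++ B s :: post s
  have hcb : ∀ s, cb s ≠ [] := fun s => by simp only [cb]; split_ifs <;> simp
  have r2 : RL (fun s => dec (κ s) (U s ++ (E s ++ V s))) (fun s => dec (κ s) (fl (cb s))) := by
    have hthr := dl_thr (κ := κ) g1 j (by omega) (u := fun s => fl (pre s))
      (v := fun s => (if isn (B s) then [(0, .o)] else []) ++ (E s ++ V s)) hcut
      (fun s => by simp only [U]; simp)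
    refine RL.delete (φ := κ) (k := fun s => (fl (pre s)).length) (dl_con g1) hthr
      (fun s => (g1 s).dec) (fun s => (fl_good (hcb s)).dec) ?_ ?_
    · intro s hs
      have hs' : isn (B s) = false := hs
      have h1 := e0 s
      simp only [cb, E, hs'] at h1 ⊢
      simp only [Bool.false_eq_true, if_false, List.map_nil] at h1 ⊢
      rw [h1]
    · intro s hs
      have hs' : isn (B s) = true := hs
      obtain ⟨b, M, hb, hb0⟩ := fl_cons_ex (bs := (B s).s1 :: (B s).s2 :: post s) (by simp)
      refine ⟨dec (κ s) (fl (pre s)), dec (κ s) M, (0, .o, κ s), (b.1, b.2, κ s), ?_, ?_, ?_⟩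
      · rw [e2 s hs', dec_split, hb]; rfl
      · simp only [cb, hs', if_true]
        rw [fl_append, hb, dec_split]
      · simp
  -- insertion of the leaf
  let cb3 : ι → List Blk := fun s => if isn (B s) then pre s ++ (B s).s1 :: (B s).s2 :: post s
    else pre s ++ B s :: .lf 0 :: post s
  have hcb3 : ∀ s, cb3 s ≠ [] := fun s => by simp only [cb3]; split_ifs <;> simp
  let fb : ι → Blk := fun s => if isn (B s) then (B s).s1 else B s
  let rb : ι → List Blk := fun s => if isn (B s) then (B s).s2 :: post s else post s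
  have hrb : ∀ s, rb s ≠ [] := fun s => by simp only [rb]; split_ifs <;> simp [hpost s]
  have ecb : ∀ s, cb s = (pre s ++ [fb s]) ++ rb s := by
    intro s; simp only [cb, fb, rb]; split_ifs <;> simp
  have gcb : ∀ s, Good (fl (cb s)) := fun s => fl_good (hcb s)
  have r3 : RL (fun s => dec (κ s) (fl (cb s))) (fun s => dec (κ s) (fl (cb3 s))) := by
    have hthr := dl_thr (κ := κ) gcb (j + 1) (by omega) (u := fun s => fl (pre s ++ [fb s]))
      (v := fun s => fl (rb s)) (fun s => by
        have := cut_fl (pre s ++ [fb s]); rwa [List.length_append, hpre s] at this)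
      (fun s => by rw [ecb, fl_append])
    refine RL.insert (φ := fun s => !κ s) (k := fun s => (fl (pre s ++ [fb s])).length)
      (y := fun _ => 0) (π := fun s => (Lt.d, κ s)) ((dl_con gcb).map (fun a => !a)) hthr
      ((dl_con (κ := κ) gcb).map (fun _ => Fin.ofNat 3 0))
      ((dl_con (κ := κ) gcb).map (fun a => (Lt.d, a)))
      (fun s => (gcb s).dec) (fun s => (fl_good (hcb3 s)).dec) ?_ ?_
    · intro s hs
      have hs' : isn (B s) = true := by simpa [κ] using hs
      simp only [cb, cb3, hs', if_true]
    · intro s hs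
      have hs' : isn (B s) = false := by simpa [κ] using hs
      obtain ⟨b, M, hb, hb0⟩ := fl_cons_ex (hpost s)
      refine ⟨dec (κ s) (fl (pre s ++ [fb s])), dec (κ s) M, (b.1, b.2, κ s), ?_, ?_, ?_, ?_, ?_⟩
      · simp only [ecb, rb, hs', Bool.false_eq_true, if_false]
        rw [fl_append, hb, dec_split]
      · have e : cb3 s = (pre s ++ [fb s]) ++ (.lf 0 :: post s) := by
          simp only [cb3, fb, hs']; simp
        rw [e, fl_append, fl_cons, hb]
        have e' : ents 0 (.lf 0) ++ b :: M = (0, .d) :: b :: M := rfl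
        rw [e', dec_split]
        simp [dec]
      · simp
      · simp
      · simp only; omega
  -- insertion of the bracket
  let cb4 : ι → List Blk := fun s => pre s ++ (B s).s1 :: (B s).s2 :: post s
  have gcb3 : ∀ s, Good (fl (cb3 s)) := fun s => fl_good (hcb3 s)
  have gcb4 : ∀ s, Good (fl (cb4 s)) := fun s => fl_good (by simp [cb4])
  let rb3 : ι → List Blk := fun s => if isn (B s) then (B s).s1 :: (B s).s2 :: post s else
    B s :: .lf 0 :: post s
  have ecb3 : ∀ s, cb3 s = pre s ++ rb3 s := by
    intro s; simp only [cb3, rb3]; split_ifs <;> rfl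
  have r4 : RL (fun s => dec (κ s) (fl (cb3 s))) (fun s => dec (κ s) (fl (cb4 s))) := by
    have hthr := dl_thr (κ := κ) gcb3 j (by omega) (u := fun s => fl (pre s))
      (v := fun s => fl (rb3 s)) hcut (fun s => by rw [ecb3, fl_append])
    refine RL.insert (φ := fun s => !κ s) (k := fun s => (fl (pre s)).length)
      (y := fun _ => 0) (π := fun s => (Lt.b, κ s)) ((dl_con gcb3).map (fun a => !a)) hthr
      ((dl_con (κ := κ) gcb3).map (fun _ => Fin.ofNat 3 0))
      ((dl_con (κ := κ) gcb3).map (fun a => (Lt.b, a)))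
      (fun s => (gcb3 s).dec) (fun s => (gcb4 s).dec) ?_ ?_
    · intro s hs
      have hs' : isn (B s) = true := by simpa [κ] using hs
      simp only [cb3, cb4, hs', if_true]
    · intro s hs
      have hs' : isn (B s) = false := by simpa [κ] using hs
      obtain ⟨b, M, hb, hb0⟩ := fl_cons_ex (bs := B s :: .lf 0 :: post s) (by simp)
      refine ⟨dec (κ s) (fl (pre s)), dec (κ s) M, (b.1, b.2, κ s), ?_, ?_, ?_, ?_, ?_⟩
      · simp only [ecb3, rb3, hs', Bool.false_eq_true, if_false]
        rw [fl_append, hb, dec_split]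
      · simp only [cb4]
        have e : fl ((B s).s1 :: (B s).s2 :: post s) = (0, .b) :: fl (B s :: .lf 0 :: post s) := by
          cases hB : B s with
          | nd A B' => rw [hB] at hs'; simp [isn] at hs'
          | lf a =>
            simp only [fl_cons, Blk.s1, Blk.s2, ents]
            rw [List.replicate_succ]
            rfl
        rw [fl_append, e, hb, dec_split]
        simp [dec]
      · simp
      · simp
      · simp only; omega
  exact ((((r0.trans r1).trans r2).trans r3).trans r4).trans (RL.undec gcb4)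

end

end Pool.Agent.Q27.TF
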