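import Pool.Agent.Q27.TF.Moves

/-!
# Joining blocks
-/

namespace Pool.Agent.Q27.TF

open Pool.Agent.Q27.LT

section
variable {ι : Type}

/-- **Joining two blocks.** -/
theorem rl_join (j : ℕ) (hj : j ≤ 1) {pre post : ι → List Blk} {A B : ι → Blk}
    (hpre : ∀ s, (pre s).length = j) (hpost : ∀ s, post s ≠ []) :
    RL (fun s => fl (pre s ++ A s :: B s :: post s))
      (fun s => fl (pre s ++ (A s).jn (B s) :: post s)) := by
  let κ : ι → Bool := fun s => Blk.rd (A s) (B s)
  have hcut : ∀ s, Cut j (fl (pre s)) := fun s => by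
    have := cut_fl (pre s); rwa [hpre s] at this
  have hcut1 : ∀ s C, Cut (j + 1) (fl (pre s ++ [C])) := fun s C => by
    have := cut_fl (pre s ++ [C]); rwa [List.length_append, hpre s] at this
  have g0 : ∀ s, Good (fl (pre s ++ A s :: B s :: post s)) := fun s => fl_good (by simp)
  have r0 : RL (fun s => fl (pre s ++ A s :: B s :: post s))
      (fun s => dec (κ s) (fl (pre s ++ A s :: B s :: post s))) := by
    refine RL.dec g0 ?_
    have d1 := dl_blk g0 j (by omega) hcut (B := A) (v := fun s => fl (B s :: post s))
      (fun s => by rw [fl_append, fl_cons]) (fun l => decide (l = .b))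
    have d2 := dl_blk g0 j (by omega) hcut (B := A) (v := fun s => fl (B s :: post s))
      (fun s => by rw [fl_append, fl_cons]) (fun l => decide (l = .o))
    have d3 := dl_blk g0 (j + 1) (by omega) (fun s => hcut1 s (A s)) (B := B)
      (v := fun s => fl (post s))
      (fun s => by rw [← fl_cons, ← fl_append]; simp) (fun l => decide (l ≠ .d))
    refine ((d1.pair d2).map₂ d3 (fun a b => a.1 && !a.2 && !b)).congr (fun s i _ => ?_)
    simp only [κ]
    rw [Bool.eq_iff_iff, rd_iff']
    simp only [Bool.and_eq_true, decide_eq_true_eq, Bool.not_eq_true', decide_eq_false_iff_not,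
      and_assoc]
  -- insertion of the bracket
  let J : ι → List (ℕ × Lt) := fun s => if Blk.rd (A s) (B s) then [] else [(0, .o)]
  have e1 : ∀ s, Blk.rd (A s) (B s) = false → J s ++ fl (A s :: B s :: post s) =
      (0, .o) :: fl (A s :: B s :: post s) := by
    intro s hs; simp only [J, hs]; rfl
  have e1' : ∀ s, Blk.rd (A s) (B s) = true → J s = [] := by
    intro s hs; simp only [J, hs, if_true]
  have g1 : ∀ s, Good (fl (pre s) ++ (J s ++ fl (A s :: B s :: post s))) := by
    intro s
    have h1 := g0 s
    rw [fl_append] at h1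
    by_cases hs : Blk.rd (A s) (B s) = true
    · rw [e1' s hs]; exact h1
    · rw [e1 s (by simpa using hs)]
      obtain ⟨b, M, hb, hb0⟩ := fl_cons_ex (bs := A s :: B s :: post s) (by simp)
      rw [hb] at h1 ⊢
      exact h1.insert hb0.symm
  have r1 : RL (fun s => dec (κ s) (fl (pre s ++ A s :: B s :: post s)))
      (fun s => dec (κ s) (fl (pre s) ++ (J s ++ fl (A s :: B s :: post s)))) := by
    have hthr := dl_thr (κ := κ) g0 j (by omega) (u := fun s => fl (pre s))
      (v := fun s => fl (A s :: B s :: post s)) hcut (fun s => by rw [fl_append])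
    refine RL.insert (φ := fun s => !κ s) (k := fun s => (fl (pre s)).length)
      (y := fun _ => 0) (π := fun s => (Lt.o, κ s)) ((dl_con g0).map (fun a => !a)) hthr
      ((dl_con (κ := κ) g0).map (fun _ => Fin.ofNat 3 0))
      ((dl_con (κ := κ) g0).map (fun a => (Lt.o, a)))
      (fun s => (g0 s).dec) (fun s => (g1 s).dec) ?_ ?_
    · intro s hs
      have hs' : Blk.rd (A s) (B s) = true := by simpa [κ] using hs
      rw [e1' s hs', List.nil_append, fl_append]
    · intro s hs
      have hs' : Blk.rd (A s) (B s) = false := by simpa [κ] using hs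
      obtain ⟨b, M, hb, hb0⟩ := fl_cons_ex (bs := A s :: B s :: post s) (by simp)
      refine ⟨dec (κ s) (fl (pre s)), dec (κ s) M, (b.1, b.2, κ s), ?_, ?_, ?_, ?_, ?_⟩
      · rw [fl_append, hb, dec_split]
      · rw [e1 s hs', hb, dec_split]
        simp [dec]
      · simp
      · simp
      · simp only; omega
  -- the change of the heights
  let U : ι → List (ℕ × Lt) := fun s => fl (pre s) ++ J s
  let E : ι → List (ℕ × Lt) := fun s => if Blk.rd (A s) (B s) then [] else ents 0 (A s)
  let V : ι → List (ℕ × Lt) := fun s =>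
    (if Blk.rd (A s) (B s) then ents 0 (A s) else []) ++ fl (B s :: post s)
  have hV : ∀ s, V s ≠ [] := fun s => by simp only [V]; simp [fl_ne]
  have e2 : ∀ s, fl (pre s) ++ (J s ++ fl (A s :: B s :: post s)) = U s ++ (E s ++ V s) := by
    intro s
    simp only [U, E, V]
    rw [fl_cons (A s)]
    by_cases hs : Blk.rd (A s) (B s) = true
    · simp [hs]
    · simp [hs]
  let cb : ι → List Blk := fun s => if Blk.rd (A s) (B s) then pre s ++ A s :: B s :: post s
    else pre s ++ .nd (A s) (B s) :: post s
  have hcb : ∀ s, cb s ≠ [] := fun s => by simp only [cb]; split_ifs <;> simp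
  have gcb : ∀ s, Good (fl (cb s)) := fun s => fl_good (hcb s)
  have e3 : ∀ s, U s ++ ((E s).map up ++ V s) = fl (cb s) := by
    intro s
    simp only [U, E, V, cb, J]
    by_cases hs : Blk.rd (A s) (B s) = true
    · simp only [hs, if_true]
      rw [fl_append, fl_cons (A s)]; simp
    · simp only [hs, if_false, Bool.false_eq_true]
      rw [fl_append, fl_cons, ← ents_up, fl_cons]
      simp [ents]
  have g2 : ∀ s, Good (U s ++ ((E s).map up ++ V s)) := fun s => by rw [e3]; exact gcb s
  have g1' : ∀ s, Good (U s ++ (E s ++ V s)) := fun s => by rw [← e2]; exact g1 s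
  have r2 : RL (fun s => dec (κ s) (fl (pre s) ++ (J s ++ fl (A s :: B s :: post s))))
      (fun s => dec (κ s) (fl (cb s))) := by
    simp only [e2, ← e3]
    refine rl_up hV g2 g1' ?_
    have t1 := dl_thr (κ := κ) g1' j (by omega) (u := fun s => fl (pre s))
      (v := fun s => J s ++ fl (A s :: B s :: post s)) hcut (fun s => (e2 s).symm)
    have t1' := t1.prev false
    have t2 := dl_cs (κ := κ) g1' (j + 1) (by omega)
    refine ((t1'.pair t2).map₂ (dl_con (κ := κ) g1') (fun a b => !b && a.1 && !a.2)).congr
      (fun s i _ => ?_)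
    simp only [κ]
    by_cases hs : Blk.rd (A s) (B s) = true
    · simp only [U, E, J, hs, if_true]
      simp
    · have hs' : Blk.rd (A s) (B s) = false := by simpa using hs
      have c2 := ((hcut s).blk' (A s)).thr (fl (B s :: post s)) i
      have e4 : (fl (pre s) ++ (0, Lt.o) :: ents 0 (A s)) ++ fl (B s :: post s) =
          U s ++ (E s ++ V s) := by
        simp only [U, E, V, J, hs']; simp
      rw [e4] at c2
      simp only [List.length_append, List.length_cons] at c2
      have l1 : (U s).length = (fl (pre s)).length + 1 := by simp only [U, J, hs']; simp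
      have l2 : (E s).length = (ents 0 (A s)).length := by simp only [E, hs']; simp
      rw [l1, l2, Bool.eq_iff_iff]
      simp only [hs', Bool.not_false, Bool.true_and, Bool.and_eq_true, Bool.not_eq_true',
        decide_eq_false_iff_not, decide_eq_true_eq, c2]
      by_cases h0 : i = 0
      · simp [h0]
      · simp only [h0, if_false, decide_eq_true_eq]
        omega
  -- deletion of the leaf
  let cb3 : ι → List Blk := fun s => if Blk.rd (A s) (B s) then pre s ++ A s :: post s
    else pre s ++ .nd (A s) (B s) :: post s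
  have hcb3 : ∀ s, cb3 s ≠ [] := fun s => by simp only [cb3]; split_ifs <;> simp
  have gcb3 : ∀ s, Good (fl (cb3 s)) := fun s => fl_good (hcb3 s)
  let fb : ι → Blk := fun s => if Blk.rd (A s) (B s) then A s else .nd (A s) (B s)
  let rb : ι → List Blk := fun s => if Blk.rd (A s) (B s) then B s :: post s else post s
  have ecb : ∀ s, cb s = (pre s ++ [fb s]) ++ rb s := by
    intro s; simp only [cb, fb, rb]; split_ifs <;> simp
  have r3 : RL (fun s => dec (κ s) (fl (cb s))) (fun s => dec (κ s) (fl (cb3 s))) := by
    have hthr := dl_thr (κ := κ) gcb (j + 1) (by omega) (u := fun s => fl (pre s ++ [fb s]))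
      (v := fun s => fl (rb s)) (fun s => hcut1 s (fb s))
      (fun s => by rw [ecb, fl_append])
    refine RL.delete (φ := κ) (k := fun s => (fl (pre s ++ [fb s])).length)
      (dl_con gcb) hthr (fun s => (gcb s).dec) (fun s => (gcb3 s).dec) ?_ ?_
    · intro s hs
      have hs' : Blk.rd (A s) (B s) = false := hs
      simp only [cb, cb3, hs', Bool.false_eq_true, if_false]
    · intro s hs
      have hs' : Blk.rd (A s) (B s) = true := hs
      obtain ⟨a, ha, hb'⟩ := Blk.rd_iff.1 hs'
      obtain ⟨b, M, hb, hb0⟩ := fl_cons_ex (hpost s)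
      refine ⟨dec (κ s) (fl (pre s ++ [fb s])), dec (κ s) M, (0, .d, κ s), (b.1, b.2, κ s),
        ?_, ?_, ?_⟩
      · simp only [ecb, rb, hs', if_true]
        rw [fl_append, fl_cons, hb', hb]
        have e' : ents 0 (.lf 0) ++ b :: M = (0, .d) :: b :: M := rfl
        rw [e', dec_split]
        simp [dec]
      · have e : cb3 s = (pre s ++ [fb s]) ++ post s := by
          simp only [cb3, fb, hs', if_true]; simp
        rw [e, fl_append, hb, dec_split]
      · simp
  -- deletion of the bracket
  let cb4 : ι → List Blk := fun s => pre s ++ (A s).jn (B s) :: post s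
  have gcb4 : ∀ s, Good (fl (cb4 s)) := fun s => fl_good (by simp [cb4])
  have r4 : RL (fun s => dec (κ s) (fl (cb3 s))) (fun s => dec (κ s) (fl (cb4 s))) := by
    have hthr := dl_thr (κ := κ) gcb3 j (by omega) (u := fun s => fl (pre s))
      (v := fun s => fl (fb s :: post s)) hcut (fun s => by
        rw [← fl_append]
        simp only [cb3, fb]
        split_ifs <;> rfl)
    refine RL.delete (φ := κ) (k := fun s => (fl (pre s)).length)
      (dl_con gcb3) hthr (fun s => (gcb3 s).dec) (fun s => (gcb4 s).dec) ?_ ?_
    · intro s hs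
      have hs' : Blk.rd (A s) (B s) = false := hs
      simp only [cb3, cb4, hs', Bool.false_eq_true, if_false]
      rw [Blk.jn_rd hs']
    · intro s hs
      have hs' : Blk.rd (A s) (B s) = true := hs
      obtain ⟨a, ha, hb'⟩ := Blk.rd_iff.1 hs'
      obtain ⟨b, M, hb, hb0⟩ := fl_cons_ex (bs := .lf a :: post s) (by simp)
      have e5 : fl (A s :: post s) = (0, .b) :: fl (.lf a :: post s) := by
        rw [ha]
        simp only [fl_cons, ents]
        rw [List.replicate_succ]
        rfl
      refine ⟨dec (κ s) (fl (pre s)), dec (κ s) M, (0, .b, κ s), (b.1, b.2, κ s),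
        ?_, ?_, ?_⟩
      · simp only [cb3, hs', if_true]
        rw [fl_append, e5, hb, dec_split]
        simp [dec]
      · simp only [cb4]
        have e6 : (A s).jn (B s) = .lf a := by rw [ha, hb']; rfl
        rw [fl_append, e6, hb, dec_split]
      · simp
  exact ((((r0.trans r1).trans r2).trans r3).trans r4).trans (RL.undec gcb4)

end

end Pool.Agent.Q27.TF
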