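import Pool.Agent.Q27.TF.Moves2

/-!
# The right end of the tape
-/

namespace Pool.Agent.Q27.TF

open Pool.Agent.Q27.LT

/-- length of the trailing run of last cells -/
def tr (L : List (ℕ × Lt)) : ℕ := (L.rtakeWhile (fun a => decide (a = ed))).length

theorem tr_nil : tr [] = 0 := by simp [tr]

theorem tr_snoc (L : List (ℕ × Lt)) (a : ℕ × Lt) :
    tr (L ++ [a]) = if a = ed then tr L + 1 else 0 := by
  unfold tr
  rw [List.rtakeWhile_concat]
  by_cases h : a = ed
  · simp [h]
  · simp [h]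

section
variable {ι : Type} {L : ι → List (ℕ × Lt)}

theorem dl_tr (hL : ∀ s, Good (L s)) :
    DL L (fun s _ => Fin.ofNat 5 (min (tr (L s)) 4)) := by
  have all := (dl_zero hL).pair (dl_pay L)
  let f : Fin 5 → Bool × Lt → Fin 5 := fun q y => if y.1 && decide (y.2 = .d) then
    (if q = 4 then 4 else q + 1) else 0
  have hrec : ∀ s, ∀ i < (L s).length, Fin.ofNat 5 (min (tr ((L s).take (i + 1))) 4) =
      f (Fin.ofNat 5 (min (tr ((L s).take i)) 4)) (decide (hh (L s) i = 0), pp (L s) i) := by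
    intro s i hi
    rw [List.take_succ_eq_append_getElem hi, tr_snoc]
    have e : ((L s)[i] = ed) ↔ (hh (L s) i = 0 ∧ pp (L s) i = .d) := by
      unfold hh pp
      rw [gx_lt hi]
      constructor
      · intro h; rw [h]; exact ⟨rfl, rfl⟩
      · rintro ⟨h1, h2⟩; exact Prod.ext h1 h2
    simp only [f]
    by_cases h1 : (L s)[i] = ed
    · rw [if_pos h1]
      obtain ⟨h2, h3⟩ := e.1 h1
      simp only [h2, h3, decide_true, Bool.and_self, if_true]
      by_cases h4 : 4 ≤ tr ((L s).take i)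
      · rw [show min (tr ((L s).take i) + 1) 4 = 4 by omega,
          show min (tr ((L s).take i)) 4 = 4 by omega]
        rfl
      · have h5 : tr ((L s).take i) = 0 ∨ tr ((L s).take i) = 1 ∨ tr ((L s).take i) = 2 ∨
            tr ((L s).take i) = 3 := by omega
        rcases h5 with h5 | h5 | h5 | h5 <;> rw [h5] <;> rfl
    · rw [if_neg h1]
      have h2 : (decide (hh (L s) i = 0) && decide (pp (L s) i = .d)) = false := by
        rw [Bool.eq_false_iff]
        intro h3
        simp only [Bool.and_eq_true, decide_eq_true_eq] at h3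
        exact h1 (e.2 h3)
      simp only [h2, Bool.false_eq_true, if_false]
      rfl
  have h := all.scanL (0 : Fin 5) f (fun s i => Fin.ofNat 5 (min (tr ((L s).take i)) 4))
    (fun s => by simp [tr_nil]) hrec
  refine (h.map₂ all f).last.congr (fun s i hi => ?_)
  rw [← hrec s _ (by omega), show (L s).length - 1 + 1 = (L s).length by omega, List.take_length]

end

theorem blk_end {B : Blk} (h : B ≠ .lf 0) : ∃ E e, ents 0 B = E ++ [e] ++ [ed] ∧ e ≠ ed := by
  induction B with
  | lf a =>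
    cases a with
    | zero => exact absurd rfl h
    | succ a =>
      refine ⟨List.replicate a (0, .b), (0, .b), ?_, by simp⟩
      simp only [ents]
      rw [List.replicate_succ']
  | nd A B h1 h2 =>
    by_cases hB : B = .lf 0
    · subst hB
      obtain ⟨E, hE⟩ := ents_last 1 A
      refine ⟨(0, .o) :: E, (1, .d), ?_, by simp⟩
      simp [ents, hE]
    · obtain ⟨E, e, hE, he⟩ := h2 hB
      refine ⟨(0, .o) :: (ents 1 A ++ E), e, ?_, he⟩
      simp [ents, hE]

/-- number of blocks without the trailing trivial ones -/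
noncomputable def Nb (ω : Om) : ℕ := sInf {N | Triv ω N}

/-- number of blocks on the tape -/
noncomputable def MM (ω : Om) : ℕ := 2 + max 1 (Nb ω)

theorem nb_spec {ω : Om} (h : ∃ N, Triv ω N) : Triv ω (Nb ω) := Nat.sInf_mem (s := {N | Triv ω N}) h

theorem nb_le {ω : Om} {N : ℕ} (h : Triv ω N) : Nb ω ≤ N := Nat.sInf_le h

theorem nb_ne {ω : Om} (h : ∃ N, Triv ω N) (h1 : 1 ≤ Nb ω) : (ω (Nb ω - 1)).1 ≠ .lf 0 := by
  intro h2
  have h3 : Triv ω (Nb ω - 1) := by
    intro i hi
    by_cases h4 : i = Nb ω - 1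
    · rw [h4]; exact h2
    · exact nb_spec h i (by omega)
  have := nb_le h3
  omega

theorem fl_one (B : Blk) : fl [B] = ents 0 B := by simp [fl]

theorem tr_tape {ω : Om} (h : ∃ N, Triv ω N) (k : ℕ) :
    tr (fl (bl ω (Nb ω + k))) = k + (if Nb ω = 0 then 0 else 1) := by
  induction k with
  | zero =>
    by_cases h0 : Nb ω = 0
    · rw [h0]; simp [bl, fl, tr_nil]
    · rw [if_neg h0, Nat.add_zero]
      have e : Nb ω = (Nb ω - 1) + 1 := by omega
      have h2 := nb_ne h (by omega)
      conv_lhs => rw [e]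
      rw [bl_succ, fl_append, fl_one]
      obtain ⟨E, e', hE, he⟩ := blk_end h2
      rw [hE, ← List.append_assoc, tr_snoc, if_pos rfl, ← List.append_assoc, tr_snoc, if_neg he]
  | succ k ih =>
    rw [← add_assoc, bl_succ, fl_append, fl_one, nb_spec h (Nb ω + k) (by omega)]
    have e : ents 0 (.lf 0) = [ed] := rfl
    rw [e, tr_snoc, if_pos rfl, ih]
    omega

theorem tr_lt {ω : Om} (h : ∃ N, Triv ω N) {M : ℕ} (hM : Nb ω ≤ M) :
    (tr (fl (bl ω M)) < 3 ↔ M < MM ω) ∧ (4 ≤ tr (fl (bl ω M)) ↔ MM ω < M) := by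
  obtain ⟨k, rfl⟩ : ∃ k, M = Nb ω + k := ⟨M - Nb ω, by omega⟩
  rw [tr_tape h]
  unfold MM
  split_ifs with h0
  · rw [h0]; constructor <;> constructor <;> intro <;> omega
  · constructor <;> constructor <;> intro <;> omega

theorem bl_length (ω : Om) (M : ℕ) : (bl ω M).length = M := by simp [bl]

theorem bl_ne {ω : Om} {M : ℕ} (h : 1 ≤ M) : bl ω M ≠ [] := by
  intro h1
  have := congrArg List.length h1
  rw [bl_length] at this
  simp at this; omega

theorem fl_bl_succ {ω : Om} (h : ∃ N, Triv ω N) {M : ℕ} (hM : Nb ω ≤ M) :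
    fl (bl ω (M + 1)) = fl (bl ω M) ++ [ed] := by
  rw [bl_succ, fl_append, fl_one, nb_spec h M hM]; rfl

theorem fl_getLast {bs : List Blk} (h : bs ≠ []) : (fl bs).getLast (fl_ne h) = ed := by
  obtain ⟨E, hE⟩ := fl_last h
  simp only [hE, List.getLast_append_singleton]

section
variable {ι : Type} {ω : ι → Om} {M : ι → ℕ}

theorem rl_app (h : ∀ s, ∃ N, Triv (ω s) N) (h1 : ∀ s, 1 ≤ M s) (h2 : ∀ s, Nb (ω s) ≤ M s) :
    RL (fun s => fl (bl (ω s) (M s)))
      (fun s => fl (bl (ω s) (if M s < MM (ω s) then M s + 1 else M s))) := by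
  have g : ∀ s, Good (fl (bl (ω s) (M s))) := fun s => fl_good (bl_ne (h1 s))
  refine RL.append (φ := fun s => decide (M s < MM (ω s))) ?_ g (fun s => ?_)
  · refine ((dl_tr g).map (fun q => decide (q.val < 3))).congr (fun s i _ => ?_)
    rw [decide_eq_decide, ← (tr_lt (h s) (h2 s)).1]
    simp only [Fin.ofNat]
    rw [Nat.mod_eq_of_lt (by omega)]
    omega
  · by_cases hs : M s < MM (ω s)
    · simp only [hs, if_true, decide_true]
      rw [fl_bl_succ (h s) (h2 s), fl_getLast (bl_ne (h1 s))]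
    · simp [hs]

theorem rl_chp (h : ∀ s, ∃ N, Triv (ω s) N) (h2 : ∀ s, MM (ω s) ≤ M s) :
    RL (fun s => fl (bl (ω s) (M s)))
      (fun s => fl (bl (ω s) (if MM (ω s) < M s then M s - 1 else M s))) := by
  have hm : ∀ s, Nb (ω s) + 2 ≤ MM (ω s) ∧ 3 ≤ MM (ω s) := fun s => by unfold MM; omega
  have g : ∀ s, Good (fl (bl (ω s) (M s))) := fun s =>
    fl_good (bl_ne (by have := hm s; have := h2 s; omega))
  have hne : ∀ s, bl (ω s) (if MM (ω s) < M s then M s - 1 else M s) ≠ [] := fun s =>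
    bl_ne (by have := hm s; have := h2 s; split_ifs <;> omega)
  refine RL.chop (φ := fun s => decide (MM (ω s) < M s)) ?_ (fun s => fl_good (hne s)) (fun s => ?_)
  · refine ((dl_tr g).map (fun q => decide (4 ≤ q.val))).congr (fun s i _ => ?_)
    rw [decide_eq_decide, ← (tr_lt (h s) (by have := hm s; have := h2 s; omega)).2]
    simp only [Fin.ofNat]
    rw [Nat.mod_eq_of_lt (by omega)]
    omega
  · by_cases hs : MM (ω s) < M s
    · have e : M s = (M s - 1) + 1 := by omega
      simp only [hs, if_true, decide_true]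
      rw [fl_getLast (bl_ne (by have := hm s; omega))]
      conv_lhs => rw [e]
      rw [fl_bl_succ (h s) (by have := hm s; omega)]
    · simp [hs]

/-- normalization of the right end -/
theorem rl_norm (h : ∀ s, ∃ N, Triv (ω s) N) (h1 : ∀ s, 1 ≤ M s) (h2 : ∀ s, Nb (ω s) ≤ M s)
    (h3 : ∀ s, M s ≤ MM (ω s) + 2) (h4 : ∀ s, MM (ω s) ≤ M s + 2) :
    RL (fun s => fl (bl (ω s) (M s))) (fun s => fl (bl (ω s) (MM (ω s)))) := by
  let M1 : ι → ℕ := fun s => if M s < MM (ω s) then M s + 1 else M s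
  let M2 : ι → ℕ := fun s => if M1 s < MM (ω s) then M1 s + 1 else M1 s
  let M3 : ι → ℕ := fun s => if MM (ω s) < M2 s then M2 s - 1 else M2 s
  have a1 : ∀ s, 1 ≤ M1 s ∧ Nb (ω s) ≤ M1 s ∧ M1 s ≤ MM (ω s) + 2 ∧ MM (ω s) ≤ M1 s + 1 := by
    intro s
    have := h1 s; have := h2 s; have := h3 s; have := h4 s
    simp only [M1]
    split_ifs <;> omega
  have a2 : ∀ s, MM (ω s) ≤ M2 s ∧ M2 s ≤ MM (ω s) + 2 := by
    intro s
    have := a1 s
    simp only [M2]
    split_ifs <;> omega
  have a3 : ∀ s, MM (ω s) ≤ M3 s ∧ M3 s ≤ MM (ω s) + 1 := by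
    intro s
    have := a2 s
    simp only [M3]
    split_ifs <;> omega
  have r1 := rl_app h h1 h2
  have r2 := rl_app (M := M1) h (fun s => (a1 s).1) (fun s => (a1 s).2.1)
  have r3 := rl_chp (M := M2) h (fun s => (a2 s).1)
  have r4 := rl_chp (M := M3) h (fun s => (a3 s).1)
  have e : ∀ s, (if MM (ω s) < M3 s then M3 s - 1 else M3 s) = MM (ω s) := by
    intro s
    have := a3 s
    split_ifs <;> omega
  simp only [e] at r4
  exact ((r1.trans r2).trans r3).trans r4

end

/-! ### the generators -/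

theorem triv_nf (g : F) : ∃ N, Triv (nf g) N := by
  obtain ⟨N, h, -⟩ := main g
  exact ⟨N, h⟩

theorem nb_spl {ω : Om} {j : ℕ} (hj : j < 2) (h : ∃ N, Triv ω N) :
    Nb (spl j ω) ≤ max 1 (Nb ω) + 1 := by
  apply nb_le
  have h0 := nb_spec h
  intro i hi
  by_cases h1 : j + 1 < i
  · rw [spl_gt h1]
    exact h0 _ (by omega)
  · have h2 : j = 1 := by omega
    subst h2
    have h3 : i = 1 + 1 := by omega
    subst h3
    rw [spl_succ]
    simp only
    rw [h0 1 (by omega)]; rfl

theorem nb_joi {ω : Om} {j : ℕ} (hj : j < 2) (h : ∃ N, Triv ω N) :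
    Nb (joi j ω) ≤ max 1 (Nb ω) + 1 := by
  apply nb_le
  have h0 := nb_spec h
  intro i hi
  rw [joi_gt (by omega)]
  exact h0 _ (by omega)

/-- the tape of an element -/
noncomputable def tape' (g : F) : List (ℕ × Lt) := fl (bl (nf g) (MM (nf g)))

theorem rl_spl {ι : Type} (ω : ι → Om) (M : ι → ℕ) (j : ℕ) (hj : j < 2) (hM : ∀ s, 3 ≤ M s) :
    RL (fun s => fl (bl (ω s) (M s))) (fun s => fl (bl (spl j (ω s)) (M s + 1))) := by
  interval_cases j
  · have h := rl_split 0 (by omega) (pre := fun _ : ι => []) (B := fun s => (ω s 0).1)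
      (post := fun s => bl (fun i => ω s (i + 1)) (M s - 1)) (fun _ => rfl)
      (fun s => bl_ne (by have := hM s; omega))
    have e1 : ∀ s, bl (ω s) (M s) = [] ++ (ω s 0).1 :: bl (fun i => ω s (i + 1)) (M s - 1) := by
      intro s
      have := (bl_spl0 (ω s) (M s - 1)).1
      rw [show M s - 1 + 1 = M s by have := hM s; omega] at this
      rw [this]; rfl
    have e2 : ∀ s, bl (spl 0 (ω s)) (M s + 1) = [] ++ (ω s 0).1.s1 :: (ω s 0).1.s2 ::
        bl (fun i => ω s (i + 1)) (M s - 1) := by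
      intro s
      have := (bl_spl0 (ω s) (M s - 1)).2
      rw [show M s - 1 + 2 = M s + 1 by have := hM s; omega] at this
      rw [this]; rfl
    simp only [e1, e2]
    exact h
  · have h := rl_split 1 (by omega) (pre := fun s : ι => [(ω s 0).1]) (B := fun s => (ω s 1).1)
      (post := fun s => bl (fun i => ω s (i + 2)) (M s - 2)) (fun _ => rfl)
      (fun s => bl_ne (by have := hM s; omega))
    have e1 : ∀ s, bl (ω s) (M s) = [(ω s 0).1] ++ (ω s 1).1 ::
        bl (fun i => ω s (i + 2)) (M s - 2) := by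
      intro s
      have := (bl_spl1 (ω s) (M s - 2)).1
      rw [show M s - 2 + 2 = M s by have := hM s; omega] at this
      rw [this]; rfl
    have e2 : ∀ s, bl (spl 1 (ω s)) (M s + 1) = [(ω s 0).1] ++ (ω s 1).1.s1 :: (ω s 1).1.s2 ::
        bl (fun i => ω s (i + 2)) (M s - 2) := by
      intro s
      have := (bl_spl1 (ω s) (M s - 2)).2
      rw [show M s - 2 + 3 = M s + 1 by have := hM s; omega] at this
      rw [this]; rfl
    simp only [e1, e2]
    exact h

theorem bl_joi0 (ω : Om) (m : ℕ) :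
    bl ω (m + 2) = [] ++ (ω 0).1 :: (ω 1).1 :: bl (fun i => ω (i + 2)) m ∧
    bl (joi 0 ω) (m + 1) = [] ++ (ω 0).1.jn (ω 1).1 :: bl (fun i => ω (i + 2)) m := by
  refine ⟨by rw [bl_cons, bl_cons]; rfl, ?_⟩
  rw [bl_cons, joi_eq]
  rfl

theorem bl_joi1 (ω : Om) (m : ℕ) :
    bl ω (m + 3) = [(ω 0).1] ++ (ω 1).1 :: (ω 2).1 :: bl (fun i => ω (i + 3)) m ∧
    bl (joi 1 ω) (m + 2) = [(ω 0).1] ++ (ω 1).1.jn (ω 2).1 :: bl (fun i => ω (i + 3)) m := by
  refine ⟨by rw [bl_cons, bl_cons, bl_cons]; rfl, ?_⟩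
  rw [bl_cons, bl_cons, joi_lt (by omega)]
  have e : joi 1 ω (0 + 1) = ⟨(ω 1).1.jn (ω (1 + 1)).1, Blk.ok_jn (ω 1).2 (ω (1 + 1)).2⟩ := joi_eq
  simp only [e]
  rfl

theorem rl_joi {ι : Type} (ω : ι → Om) (M : ι → ℕ) (j : ℕ) (hj : j < 2) (hM : ∀ s, 4 ≤ M s) :
    RL (fun s => fl (bl (ω s) (M s))) (fun s => fl (bl (joi j (ω s)) (M s - 1))) := by
  interval_cases j
  · have h := rl_join 0 (by omega) (pre := fun _ : ι => []) (A := fun s => (ω s 0).1)
      (B := fun s => (ω s 1).1)
      (post := fun s => bl (fun i => ω s (i + 2)) (M s - 2)) (fun _ => rfl)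
      (fun s => bl_ne (by have := hM s; omega))
    have e1 : ∀ s, bl (ω s) (M s) = [] ++ (ω s 0).1 :: (ω s 1).1 ::
        bl (fun i => ω s (i + 2)) (M s - 2) := by
      intro s
      have := (bl_joi0 (ω s) (M s - 2)).1
      rw [show M s - 2 + 2 = M s by have := hM s; omega] at this
      exact this
    have e2 : ∀ s, bl (joi 0 (ω s)) (M s - 1) = [] ++ (ω s 0).1.jn (ω s 1).1 ::
        bl (fun i => ω s (i + 2)) (M s - 2) := by
      intro s
      have := (bl_joi0 (ω s) (M s - 2)).2
      rw [show M s - 2 + 1 = M s - 1 by have := hM s; omega] at this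
      exact this
    simp only [e1, e2]
    exact h
  · have h := rl_join 1 (by omega) (pre := fun s : ι => [(ω s 0).1]) (A := fun s => (ω s 1).1)
      (B := fun s => (ω s 2).1)
      (post := fun s => bl (fun i => ω s (i + 3)) (M s - 3)) (fun _ => rfl)
      (fun s => bl_ne (by have := hM s; omega))
    have e1 : ∀ s, bl (ω s) (M s) = [(ω s 0).1] ++ (ω s 1).1 :: (ω s 2).1 ::
        bl (fun i => ω s (i + 3)) (M s - 3) := by
      intro s
      have := (bl_joi1 (ω s) (M s - 3)).1
      rw [show M s - 3 + 3 = M s by have := hM s; omega] at this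
      exact this
    have e2 : ∀ s, bl (joi 1 (ω s)) (M s - 1) = [(ω s 0).1] ++ (ω s 1).1.jn (ω s 2).1 ::
        bl (fun i => ω s (i + 3)) (M s - 3) := by
      intro s
      have := (bl_joi1 (ω s) (M s - 3)).2
      rw [show M s - 3 + 2 = M s - 1 by have := hM s; omega] at this
      exact this
    simp only [e1, e2]
    exact h

/-- one more trivial block -/
theorem rl_ext {ι : Type} {ω : ι → Om} {M : ι → ℕ} (h : ∀ s, ∃ N, Triv (ω s) N)
    (h1 : ∀ s, 1 ≤ M s) (h2 : ∀ s, Nb (ω s) ≤ M s) :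
    RL (fun s => fl (bl (ω s) (M s))) (fun s => fl (bl (ω s) (M s + 1))) := by
  have g : ∀ s, Good (fl (bl (ω s) (M s))) := fun s => fl_good (bl_ne (h1 s))
  refine RL.append (φ := fun _ => true) ((dl_tr g).map (fun _ => true)) g (fun s => ?_)
  simp only [if_true]
  rw [fl_bl_succ (h s) (h2 s), fl_getLast (bl_ne (h1 s))]

/-- **Multiplication by a generator.** -/
theorem rl_gen (j : ℕ) (hj : j < 2) : RL tape' (fun g => tape' (g * x j)) := by
  have hm : ∀ g : F, MM (nf g) = 2 + max 1 (Nb (nf g)) := fun g => rfl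
  have h1 := rl_spl (fun g : F => nf g) (fun g => MM (nf g)) j hj (fun g => by rw [hm]; omega)
  have ht : ∀ g : F, ∃ N, Triv (spl j (nf g)) N := fun g => by
    rw [← nf_mul g j hj]; exact triv_nf _
  have b1 : ∀ g : F, Nb (spl j (nf g)) ≤ max 1 (Nb (nf g)) + 1 := fun g => nb_spl hj (triv_nf g)
  have b2 : ∀ g : F, Nb (nf g) ≤ max 1 (Nb (spl j (nf g))) + 1 := fun g => by
    have := nb_joi hj (ht g)
    have e : joi j (spl j (nf g)) = nf g := (ek j).left_inv (nf g)
    rw [e] at this
    exact this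
  have hm' : ∀ g : F, MM (spl j (nf g)) = 2 + max 1 (Nb (spl j (nf g))) := fun g => rfl
  have h2 := rl_norm (ω := fun g : F => spl j (nf g)) (M := fun g => MM (nf g) + 1) ht
    (fun g => by rw [hm]; omega) (fun g => by have := b1 g; rw [hm]; omega)
    (fun g => by have := b2 g; simp only [hm, hm']; omega)
    (fun g => by have := b1 g; simp only [hm, hm']; omega)
  have h3 := h1.trans h2
  unfold tape'
  simp only [nf_mul _ j hj]
  exact h3

theorem rl_gen_inv (j : ℕ) (hj : j < 2) : RL tape' (fun g => tape' (g * (x j)⁻¹)) := by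
  have hm : ∀ g : F, MM (nf g) = 2 + max 1 (Nb (nf g)) := fun g => rfl
  have h0 := rl_ext (ω := fun g : F => nf g) (M := fun g => MM (nf g)) triv_nf
    (fun g => by rw [hm]; omega) (fun g => by rw [hm]; omega)
  have h1 := rl_joi (fun g : F => nf g) (fun g => MM (nf g) + 1) j hj (fun g => by rw [hm]; omega)
  simp only [Nat.add_sub_cancel] at h1
  have ht : ∀ g : F, ∃ N, Triv (joi j (nf g)) N := fun g => by
    rw [← nf_mul_inv g j hj]; exact triv_nf _
  have b1 : ∀ g : F, Nb (joi j (nf g)) ≤ max 1 (Nb (nf g)) + 1 := fun g => nb_joi hj (triv_nf g)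
  have b2 : ∀ g : F, Nb (nf g) ≤ max 1 (Nb (joi j (nf g))) + 1 := fun g => by
    have := nb_spl hj (ht g)
    have e : spl j (joi j (nf g)) = nf g := (ek j).right_inv (nf g)
    rw [e] at this
    exact this
  have hm' : ∀ g : F, MM (joi j (nf g)) = 2 + max 1 (Nb (joi j (nf g))) := fun g => rfl
  have h2 := rl_norm (ω := fun g : F => joi j (nf g)) (M := fun g => MM (nf g)) ht
    (fun g => by rw [hm]; omega) (fun g => by have := b1 g; rw [hm]; omega)
    (fun g => by have := b2 g; simp only [hm, hm']; omega)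
    (fun g => by have := b1 g; simp only [hm, hm']; omega)
  have h3 := (h0.trans h1).trans h2
  unfold tape'
  simp only [nf_mul_inv _ j hj]
  exact h3

/-- right multiplication is a sweep -/
theorem sweep_mul (g : F) : ∃ f : List (TS Lt) → List (TS Lt), Sweep f ∧
    ∀ s : F, f (enc (tape' s)) = enc (tape' (s * g)) := by
  have hg : g ∈ Subgroup.closure {x 0, x 1} := by rw [closure_gen]; trivial
  induction hg using Subgroup.closure_induction'' with
  | mem y hy =>
    rcases hy with rfl | hy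
    · exact rl_gen 0 (by omega)
    · rw [Set.mem_singleton_iff] at hy
      subst hy
      exact rl_gen 1 (by omega)
  | inv_mem y hy =>
    rcases hy with rfl | hy
    · exact rl_gen_inv 0 (by omega)
    · rw [Set.mem_singleton_iff] at hy
      subst hy
      exact rl_gen_inv 1 (by omega)
  | one =>
    obtain ⟨f, hf, h⟩ := Der.red (Der.refl (N := fun s => 2 * (tape' s).length)
      (fun s => ltp (tape' s)))
    refine ⟨f, hf, fun s => ?_⟩
    rw [mul_one]
    exact h s
  | mul y z _ _ hy hz =>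
    obtain ⟨f, hf, h⟩ := hy
    obtain ⟨f', hf', h'⟩ := hz
    refine ⟨_, Sweep.comp hf hf', fun s => ?_⟩
    rw [h, h', mul_assoc]

/-! ### injectivity -/

theorem val_tape (g : F) : val ((tape' g).map Prod.snd) = g := by
  unfold tape'
  rw [fl_snd]
  obtain ⟨N, h1, h2⟩ := main g
  have h3 := nb_spec ⟨N, h1⟩
  have e1 : ∀ M, Nb (nf g) ≤ M → val (wl (bl (nf g) M)) = val (wl (bl (nf g) (Nb (nf g)))) := by
    intro M hM
    obtain ⟨k, rfl⟩ : ∃ k, M = Nb (nf g) + k := ⟨M - Nb (nf g), by omega⟩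
    exact val_ext h3 k
  have h4 := nb_le h1
  rw [e1 (MM (nf g)) (by unfold MM; omega), ← e1 N h4]
  exact h2 N (le_refl _)

theorem enc_inj : Function.Injective (fun g : F => enc (tape' g)) := by
  intro g g' h
  obtain ⟨h1, h2⟩ := word_inj h
  have hl : (tape' g).length = (tape' g').length := by omega
  have hw : (tape' g).map Prod.snd = (tape' g').map Prod.snd := by
    apply List.ext_getElem (by simpa using hl)
    intro i i1 i2
    rw [List.length_map] at i1 i2
    rw [List.getElem_map, List.getElem_map]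
    have h3 := h2 (2 * i) (by omega)
    have h5 := congrArg (fun a : TS Lt => a.2.2.2) h3
    simp only [ltp, LT.tape] at h5
    rw [Nat.mul_div_cancel_left _ (by norm_num : 0 < 2)] at h5
    unfold pp at h5
    rw [gx_lt i1, gx_lt i2] at h5
    exact h5
  rw [← val_tape g, ← val_tape g', hw]

end Pool.Agent.Q27.TF
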