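import Pool.Agent.Q27.TF.Ents

/-!
# Tracks and operations for lists of blocks
-/

namespace Pool.Agent.Q27.TF

open Pool.Agent.Q27.LT

section
variable {ι K : Type} [Finite K] [Inhabited K] {κ : ι → K} {L : ι → List (ℕ × Lt)}

theorem cs_succ (M : List (ℕ × Lt)) {i : ℕ} (h : i < M.length) :
    cs M (i + 1) = cs M i + (if hh M i = 0 ∧ pp M i = .d then 1 else 0) := by
  unfold cs
  rw [List.take_succ_eq_append_getElem h, ct_append]
  congr 1
  unfold ct hh pp
  rw [gx_lt h]
  simp only [List.countP_cons, List.countP_nil, zero_add, decide_eq_true_eq]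
  have : (M[i] = ed) ↔ (M[i].1 = 0 ∧ M[i].2 = .d) := by
    constructor
    · intro h; rw [h]; exact ⟨rfl, rfl⟩
    · rintro ⟨h1, h2⟩; exact Prod.ext h1 h2
  simp only [this]

omit [Finite K] in
/-- tracks do not need the control data -/
theorem DL.ofDec {C : Type} [Finite K] {Y : ι → ℕ → C} (hL : ∀ s, Good (L s)) (h : DL L Y) :
    DL (fun s => dec (κ s) (L s)) Y := by
  unfold DL at h ⊢
  have h1 := Der.map' (N := fun s => 2 * (dec (κ s) (L s)).length)
    (fun s => ltp (dec (κ s) (L s))) (fun a => ((a.1, a.2.1, a.2.2.1, a.2.2.2.1) : TS Lt))
  have h2 : Der (fun s => 2 * (dec (κ s) (L s)).length)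
      (fun s => ltp (dec (κ s) (L s))) (fun s => ltp (L s)) := by
    refine h1.congr (fun s j _ => ?_)
    have e1 : hh (dec (κ s) (L s)) = hh (L s) := funext (hh_dec (hL s).ne)
    simp only [ltp, vt, tape, dec_length, e1, pp_dec (hL s).ne]
  refine h2.trans ?_
  simp only [dec_length]
  exact h

omit [Finite K] [Inhabited K] in
/-- thresholds of the counter -/
theorem dl_cs0 (hL : ∀ s, Good (L s)) (j : ℕ) (hj : j ≤ 3) :
    DL L (fun s i => decide (j ≤ cs (L s) i)) := by
  have all := (dl_zero hL).pair (dl_pay L)
  have h := all.scanL (0 : Fin 4) (fun q y => if y.1 && decide (y.2 = .d) then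
    (if q = 3 then 3 else q + 1) else q) (fun s i => Fin.ofNat 4 (min (cs (L s) i) 3)) ?_ ?_
  · refine (h.map (fun q => decide (j ≤ q.val))).congr (fun s i _ => ?_)
    rw [decide_eq_decide]
    simp only [Fin.ofNat]
    rw [Nat.mod_eq_of_lt (by omega)]
    omega
  · intro s
    simp [cs, ct]
  · intro s i hi
    simp only
    rw [cs_succ _ hi]
    by_cases h1 : hh (L s) i = 0 ∧ pp (L s) i = .d
    · rw [if_pos h1]
      simp only [h1.1, h1.2, decide_true, Bool.and_self, if_true]
      by_cases h2 : 3 ≤ cs (L s) i
      · rw [show min (cs (L s) i + 1) 3 = 3 by omega, show min (cs (L s) i) 3 = 3 by omega]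
        rfl
      · have h3 : cs (L s) i = 0 ∨ cs (L s) i = 1 ∨ cs (L s) i = 2 := by omega
        rcases h3 with h3 | h3 | h3 <;> rw [h3] <;> rfl
    · rw [if_neg h1, Nat.add_zero]
      have h2 : (decide (hh (L s) i = 0) && decide (pp (L s) i = .d)) = false := by
        rw [Bool.eq_false_iff]
        intro h3
        simp only [Bool.and_eq_true, decide_eq_true_eq] at h3
        exact h1 h3
      simp only [h2, Bool.false_eq_true, if_false]

/-- thresholds of the counter -/
theorem dl_cs (hL : ∀ s, Good (L s)) (j : ℕ) (hj : j ≤ 3) :
    DL (fun s => dec (κ s) (L s)) (fun s i => decide (j ≤ cs (L s) i)) :=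
  DL.ofDec hL (dl_cs0 hL j hj)

/-- thresholds -/
theorem dl_thr (hL : ∀ s, Good (L s)) (j : ℕ) (hj : j ≤ 3) {u v : ι → List (ℕ × Lt)}
    (hu : ∀ s, Cut j (u s)) (h : ∀ s, L s = u s ++ v s) :
    DL (fun s => dec (κ s) (L s)) (fun s i => decide ((u s).length ≤ i)) := by
  refine (dl_cs hL j hj).congr (fun s i _ => ?_)
  rw [decide_eq_decide, h s]
  exact (hu s).thr _ _

theorem gx_mid {B : Type} [Inhabited B] (U E V : List B) (hV : V ≠ []) (i : ℕ) :
    gx (U ++ (E ++ V)) i = if h : i < U.length then U[i] else
      if h' : i - U.length < E.length then E[i - U.length] else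
        gx V (i - U.length - E.length) := by
  by_cases h : i < U.length
  · rw [dif_pos h, gx_append_left h]
  · rw [dif_neg h, gx_append_right (by omega) (by simp [hV])]
    by_cases h' : i - U.length < E.length
    · rw [dif_pos h', gx_append_left h']
    · rw [dif_neg h', gx_append_right (by omega) hV]

theorem gx_mid_up (U E V : List (ℕ × Lt)) (hV : V ≠ []) (i : ℕ) :
    gx (U ++ (E.map up ++ V)) i = if U.length ≤ i ∧ i < U.length + E.length then
      up (gx (U ++ (E ++ V)) i) else gx (U ++ (E ++ V)) i := by
  rw [gx_mid U _ V hV, gx_mid U E V hV]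
  by_cases h : i < U.length
  · rw [dif_pos h, dif_pos h, if_neg (by omega)]
  · rw [dif_neg h, dif_neg h]
    simp only [List.length_map]
    by_cases h' : i - U.length < E.length
    · rw [dif_pos h', dif_pos h', if_pos (by omega), List.getElem_map]
    · rw [dif_neg h', dif_neg h', if_neg (by omega)]

/-- heights decrease in a segment -/
theorem rl_down {U E V : ι → List (ℕ × Lt)} (hV : ∀ s, V s ≠ [])
    (h1 : ∀ s, Good (U s ++ ((E s).map up ++ V s))) (h2 : ∀ s, Good (U s ++ (E s ++ V s)))
    (hr : DL (fun s => dec (κ s) (U s ++ ((E s).map up ++ V s))) (fun s i =>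
      decide ((U s).length ≤ i ∧ i < (U s).length + (E s).length))) :
    RL (fun s => dec (κ s) (U s ++ ((E s).map up ++ V s)))
      (fun s => dec (κ s) (U s ++ (E s ++ V s))) := by
  have hhe : ∀ s i, hh (U s ++ ((E s).map up ++ V s)) i =
      if (U s).length ≤ i ∧ i < (U s).length + (E s).length then
        hh (U s ++ (E s ++ V s)) i + 1 else hh (U s ++ (E s ++ V s)) i := by
    intro s i
    unfold hh
    rw [gx_mid_up _ _ _ (hV s)]
    split_ifs <;> rfl
  have ppe : ∀ s i, pp (U s ++ ((E s).map up ++ V s)) i = pp (U s ++ (E s ++ V s)) i := by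
    intro s i
    unfold pp
    rw [gx_mid_up _ _ _ (hV s)]
    split_ifs <;> rfl
  refine RL.upd (fun s => (h1 s).dec) (fun s => (h2 s).dec) (fun s => by simp) (fun s i => ?_) ?_ ?_
  · rw [hh_dec (h1 s).ne, hh_dec (h2 s).ne, hhe]
    split_ifs <;> omega
  · refine (hr.map₂ (dl_res _) (fun a b => if a then b - 1 else b)).congr (fun s i _ => ?_)
    rw [hh_dec (h1 s).ne, hh_dec (h2 s).ne, hhe]
    simp only [decide_eq_true_eq]
    split_ifs
    · generalize hh (U s ++ (E s ++ V s)) i = n
      have h3 : Fin.ofNat 3 (n + 1) = Fin.ofNat 3 n + 1 := by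
        apply Fin.ext
        simp [Fin.ofNat, Fin.val_add]
      rw [h3]
      generalize Fin.ofNat 3 n = m
      revert m; decide
    · rfl
  · refine (dl_pay (fun s => dec (κ s) (U s ++ ((E s).map up ++ V s)))).congr (fun s i _ => ?_)
    rw [pp_dec (h1 s).ne, pp_dec (h2 s).ne, ppe]

/-- heights increase in a segment -/
theorem rl_up {U E V : ι → List (ℕ × Lt)} (hV : ∀ s, V s ≠ [])
    (h1 : ∀ s, Good (U s ++ ((E s).map up ++ V s))) (h2 : ∀ s, Good (U s ++ (E s ++ V s)))
    (hr : DL (fun s => dec (κ s) (U s ++ (E s ++ V s))) (fun s i =>
      decide ((U s).length ≤ i ∧ i < (U s).length + (E s).length))) :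
    RL (fun s => dec (κ s) (U s ++ (E s ++ V s)))
      (fun s => dec (κ s) (U s ++ ((E s).map up ++ V s))) := by
  have hhe : ∀ s i, hh (U s ++ ((E s).map up ++ V s)) i =
      if (U s).length ≤ i ∧ i < (U s).length + (E s).length then
        hh (U s ++ (E s ++ V s)) i + 1 else hh (U s ++ (E s ++ V s)) i := by
    intro s i
    unfold hh
    rw [gx_mid_up _ _ _ (hV s)]
    split_ifs <;> rfl
  have ppe : ∀ s i, pp (U s ++ ((E s).map up ++ V s)) i = pp (U s ++ (E s ++ V s)) i := by
    intro s i
    unfold pp
    rw [gx_mid_up _ _ _ (hV s)]
    split_ifs <;> rfl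
  refine RL.upd (fun s => (h2 s).dec) (fun s => (h1 s).dec) (fun s => by simp) (fun s i => ?_) ?_ ?_
  · rw [hh_dec (h1 s).ne, hh_dec (h2 s).ne, hhe]
    split_ifs <;> omega
  · refine (hr.map₂ (dl_res _) (fun a b => if a then b + 1 else b)).congr (fun s i _ => ?_)
    rw [hh_dec (h1 s).ne, hh_dec (h2 s).ne, hhe]
    simp only [decide_eq_true_eq]
    split_ifs
    · apply Fin.ext
      simp [Fin.ofNat, Fin.val_add]
    · rfl
  · refine (dl_pay (fun s => dec (κ s) (U s ++ (E s ++ V s)))).congr (fun s i _ => ?_)
    rw [pp_dec (h1 s).ne, pp_dec (h2 s).ne, ppe]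

/-- the segment of the first part of a node -/
theorem dl_region {φ : ι → Bool} (hL : ∀ s, Good (L s)) {u E W : ι → List (ℕ × Lt)}
    (hφ : DL (fun s => dec (κ s) (L s)) (fun s _ => φ s))
    (hu : DL (fun s => dec (κ s) (L s)) (fun s i => decide ((u s).length ≤ i)))
    (h : ∀ s, φ s = true → L s = u s ++ (0, .o) :: (E s ++ W s) ∧ (∀ y ∈ E s, y.1 ≠ 0) ∧
      (∀ y ∈ (W s).head?, y.1 = 0) ∧ W s ≠ []) :
    DL (fun s => dec (κ s) (L s)) (fun s i =>
      decide (φ s = true ∧ (u s).length + 1 ≤ i ∧ i < (u s).length + 1 + (E s).length)) := by
  have z := (dl_all (κ := κ) hL).map (fun a => a.1)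
  have all := (hφ.pair hu).pair z
  have sc := all.scanL (0 : Fin 3) (fun q y => if y.1.1 && y.1.2 && y.2 then
    (if q = 2 then 2 else q + 1) else q) (fun s i => if φ s then (if i ≤ (u s).length then 0 else
      if i ≤ (u s).length + 1 + (E s).length then 1 else 2) else 0) ?_ ?_
  · refine (sc.map₂ all (fun q y => decide (q = 1) && !y.2)).congr (fun s i hi => ?_)
    rw [dec_length] at hi
    by_cases hs : φ s = true
    · obtain ⟨e1, e2, e3, e4⟩ := h s hs
      simp only [hs, if_true]
      by_cases c1 : i ≤ (u s).length
      · rw [if_pos c1]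
        have : ¬ ((u s).length + 1 ≤ i) := by omega
        simp [this]
      · rw [if_neg c1]
        by_cases c2 : i < (u s).length + 1 + (E s).length
        · rw [if_pos (by omega)]
          have h5 : hh (L s) i ≠ 0 := by
            unfold hh
            rw [e1, gx_append_right (by omega) (by simp),
              show i - (u s).length = (i - (u s).length - 1) + 1 by omega]
            have e : (0, Lt.o) :: (E s ++ W s) = [(0, Lt.o)] ++ (E s ++ W s) := rfl
            rw [e, gx_append_right (by simp) (by simp [e4]), gx_append_left (by simp; omega)]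
            exact e2 _ (List.getElem_mem _)
          have h6 : (u s).length + 1 ≤ i := by omega
          simp [h5, c2, h6]
        · have c3 : ¬ ((u s).length + 1 ≤ i ∧ i < (u s).length + 1 + (E s).length) := by omega
          by_cases c4 : i ≤ (u s).length + 1 + (E s).length
          · rw [if_pos c4]
            have c5 : i = (u s).length + 1 + (E s).length := by omega
            have h5 : hh (L s) i = 0 := by
              unfold hh
              rw [e1, gx_append_right (by omega) (by simp),
                show i - (u s).length = (i - (u s).length - 1) + 1 by omega]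
              have e : (0, Lt.o) :: (E s ++ W s) = [(0, Lt.o)] ++ (E s ++ W s) := rfl
              rw [e, gx_append_right (by simp) (by simp [e4]),
                gx_append_right (by simp; omega) e4]
              have e5 : i - (u s).length - 1 + 1 - [((0 : ℕ), Lt.o)].length - (E s).length = 0 := by
                simp; omega
              rw [e5]
              have hp := List.length_pos_of_ne_nil e4
              rw [gx_lt hp]
              apply e3
              rw [List.head?_eq_getElem?]
              simp [hp]
            have c6 : (decide ((u s).length + 1 ≤ i ∧ i < (u s).length + 1 + (E s).length)) =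
                false := by simpa using c3
            simp only [true_and]
            rw [c6]
            simp [h5]
          · rw [if_neg c4]
            have c6 : (decide ((u s).length + 1 ≤ i ∧ i < (u s).length + 1 + (E s).length)) =
                false := by simpa using c3
            simp only [true_and]
            rw [c6]
            simp
    · simp [hs]
  · intro s; simp
  · intro s i hi
    rw [dec_length] at hi
    by_cases hs : φ s = true
    · obtain ⟨e1, e2, e3, e4⟩ := h s hs
      simp only [hs, if_true, Bool.true_and]
      by_cases c1 : i < (u s).length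
      · have a1 : i + 1 ≤ (u s).length := by omega
        have a2 : i ≤ (u s).length := by omega
        have a3 : ¬ ((u s).length ≤ i) := by omega
        simp [a1, a2, a3]
      · by_cases c2 : i = (u s).length
        · subst c2
          have h5 : hh (L s) (u s).length = 0 := by
            unfold hh
            rw [e1, gx_append_right (le_refl _) (by simp), Nat.sub_self, gx_lt (by simp)]; rfl
          have a1 : ¬ ((u s).length + 1 ≤ (u s).length) := by omega
          have a2 : (u s).length + 1 ≤ (u s).length + 1 + (E s).length := by omega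
          simp [h5]
        · by_cases c3 : i < (u s).length + 1 + (E s).length
          · have h5 : hh (L s) i ≠ 0 := by
              unfold hh
              rw [e1, gx_append_right (by omega) (by simp),
                show i - (u s).length = (i - (u s).length - 1) + 1 by omega]
              have e : (0, Lt.o) :: (E s ++ W s) = [(0, Lt.o)] ++ (E s ++ W s) := rfl
              rw [e, gx_append_right (by simp) (by simp [e4]), gx_append_left (by simp; omega)]
              exact e2 _ (List.getElem_mem _)
            have a1 : ¬ (i + 1 ≤ (u s).length) := by omega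
            have a2 : i + 1 ≤ (u s).length + 1 + (E s).length := by omega
            have a3 : ¬ (i ≤ (u s).length) := by omega
            have a4 : i ≤ (u s).length + 1 + (E s).length := by omega
            rw [if_neg a1, if_pos a2, if_neg a3, if_pos a4]
            simp [h5]
          · by_cases c4 : i = (u s).length + 1 + (E s).length
            · have h5 : hh (L s) i = 0 := by
                unfold hh
                rw [e1, gx_append_right (by omega) (by simp),
                  show i - (u s).length = (i - (u s).length - 1) + 1 by omega]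
                have e : (0, Lt.o) :: (E s ++ W s) = [(0, Lt.o)] ++ (E s ++ W s) := rfl
                rw [e, gx_append_right (by simp) (by simp [e4]),
                  gx_append_right (by simp; omega) e4]
                have e5 : i - (u s).length - 1 + 1 - [((0 : ℕ), Lt.o)].length - (E s).length = 0 := by
                  simp; omega
                rw [e5]
                have hp := List.length_pos_of_ne_nil e4
                rw [gx_lt hp]
                apply e3
                rw [List.head?_eq_getElem?]
                simp [hp]
              have a1 : ¬ (i + 1 ≤ (u s).length) := by omega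
              have a2 : ¬ (i + 1 ≤ (u s).length + 1 + (E s).length) := by omega
              have a3 : ¬ (i ≤ (u s).length) := by omega
              have a4 : i ≤ (u s).length + 1 + (E s).length := by omega
              have a5 : (u s).length ≤ i := by omega
              rw [if_neg a1, if_neg a2, if_neg a3, if_pos a4]
              simp [h5, a5]
            · have a1 : ¬ (i + 1 ≤ (u s).length) := by omega
              have a2 : ¬ (i + 1 ≤ (u s).length + 1 + (E s).length) := by omega
              have a3 : ¬ (i ≤ (u s).length) := by omega
              have a4 : ¬ (i ≤ (u s).length + 1 + (E s).length) := by omega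
              rw [if_neg a1, if_neg a2, if_neg a3, if_neg a4]
              simp
    · simp [hs]

end

end Pool.Agent.Q27.TF
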