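import Pool.Agent.Q27.TF.Group

/-!
# The relations `xₙ xₖ = xₖ xₙ₊₁`

(The computation is the one of the starting file `Pool/Agent/H812R5/F.lean`.)
-/

namespace Pool.Agent.Q27.TF

/-- the generator `x₀` -/
def a : F := PresentedGroup.of 0
/-- the generator `x₁` -/
def b : F := PresentedGroup.of 1

theorem rel1 : cm (a * b⁻¹) (a⁻¹ * b * a) = 1 := by
  have h : PresentedGroup.mk rels (cm (FreeGroup.of 0 * (FreeGroup.of 1)⁻¹)
      ((FreeGroup.of 0)⁻¹ * FreeGroup.of 1 * FreeGroup.of 0)) = 1 :=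
    PresentedGroup.one_of_mem (by left; rfl)
  simpa [cm, a, b, PresentedGroup.of] using h

theorem rel2 : cm (a * b⁻¹) (a⁻¹ * a⁻¹ * b * a * a) = 1 := by
  have h : PresentedGroup.mk rels (cm (FreeGroup.of 0 * (FreeGroup.of 1)⁻¹)
      ((FreeGroup.of 0)⁻¹ * (FreeGroup.of 0)⁻¹ * FreeGroup.of 1 * FreeGroup.of 0 *
        FreeGroup.of 0)) = 1 :=
    PresentedGroup.one_of_mem (by right; rfl)
  simpa [cm, a, b, PresentedGroup.of] using h

/-- the elements `xₙ₊₁` -/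
def Y (n : ℕ) : F := (a ^ n)⁻¹ * b * a ^ n

theorem conjA (m n : ℕ) : (a ^ m)⁻¹ * Y n * a ^ m = Y (n + m) := by
  unfold Y
  rw [pow_add]
  group

theorem comm_eq {G : Type} [Group G] {x y : G} (h : cm x y = 1) : x * y = y * x := by
  unfold cm at h
  have := mul_inv_eq_one.1 h
  exact mul_inv_eq_iff_eq_mul.1 this

theorem eq_comm' {G : Type} [Group G] {x y : G} (h : x * y = y * x) : cm x y = 1 := by
  unfold cm
  rw [h]; group

theorem base1 : (Y 0)⁻¹ * Y 1 * Y 0 = Y 2 := by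
  have h := comm_eq rel1
  have e1 : Y 1 = a⁻¹ * b * a := by simp [Y]
  have e0 : Y 0 = b := by simp [Y]
  have e2 : Y 2 = a⁻¹ * Y 1 * a := by
    have := conjA 1 1
    rw [pow_one] at this
    exact this.symm
  rw [← e1] at h
  rw [e2, e0]
  have h2 : b⁻¹ * Y 1 = a⁻¹ * (a * b⁻¹ * Y 1) := by group
  rw [h2, h]
  group

theorem base2 : (Y 0)⁻¹ * Y 2 * Y 0 = Y 3 := by
  have h := comm_eq rel2
  have e2' : Y 2 = a⁻¹ * a⁻¹ * b * a * a := by
    unfold Y
    rw [pow_two]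
    group
  have e0 : Y 0 = b := by simp [Y]
  have e3 : Y 3 = a⁻¹ * Y 2 * a := by
    have := conjA 1 2
    rw [pow_one] at this
    exact this.symm
  rw [← e2'] at h
  rw [e3, e0]
  have h2 : b⁻¹ * Y 2 = a⁻¹ * (a * b⁻¹ * Y 2) := by group
  rw [h2, h]
  group

theorem step1 (j : ℕ) : (Y j)⁻¹ * Y (j + 1) * Y j = Y (j + 2) := by
  have h : (a ^ j)⁻¹ * ((Y 0)⁻¹ * Y 1 * Y 0) * a ^ j = (a ^ j)⁻¹ * Y 2 * a ^ j :=
    congrArg (fun g => (a ^ j)⁻¹ * g * a ^ j) base1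
  have e : (a ^ j)⁻¹ * ((Y 0)⁻¹ * Y 1 * Y 0) * a ^ j =
      ((a ^ j)⁻¹ * Y 0 * a ^ j)⁻¹ * ((a ^ j)⁻¹ * Y 1 * a ^ j) * ((a ^ j)⁻¹ * Y 0 * a ^ j) := by
    group
  rw [e, conjA, conjA, conjA, zero_add, add_comm 1 j, add_comm 2 j] at h
  exact h

theorem step2 (j : ℕ) : (Y j)⁻¹ * Y (j + 2) * Y j = Y (j + 3) := by
  have h : (a ^ j)⁻¹ * ((Y 0)⁻¹ * Y 2 * Y 0) * a ^ j = (a ^ j)⁻¹ * Y 3 * a ^ j :=
    congrArg (fun g => (a ^ j)⁻¹ * g * a ^ j) base2
  have e : (a ^ j)⁻¹ * ((Y 0)⁻¹ * Y 2 * Y 0) * a ^ j =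
      ((a ^ j)⁻¹ * Y 0 * a ^ j)⁻¹ * ((a ^ j)⁻¹ * Y 2 * a ^ j) * ((a ^ j)⁻¹ * Y 0 * a ^ j) := by
    group
  rw [e, conjA, conjA, conjA, zero_add, add_comm 2 j, add_comm 3 j] at h
  exact h

theorem step (d : ℕ) : ∀ j, (Y j)⁻¹ * Y (j + d + 1) * Y j = Y (j + d + 2) := by
  induction d using Nat.strong_induction_on with
  | _ d ih =>
    intro j
    match d, ih with
    | 0, _ => exact step1 j
    | 1, _ => exact step2 j
    | e + 2, ih =>
      have h1 := ih e (by omega) j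
      have h2 := ih (e + 1) (by omega) j
      have h3 : Y (j + (e + 2) + 1) = (Y (j + e + 1))⁻¹ * Y (j + e + 2) * Y (j + e + 1) :=
        (step1 (j + e + 1)).symm
      have h4 : Y (j + (e + 2) + 2) = (Y (j + e + 2))⁻¹ * Y (j + e + 3) * Y (j + e + 2) :=
        (step1 (j + e + 2)).symm
      have h2' : (Y j)⁻¹ * Y (j + e + 2) * Y j = Y (j + e + 3) := h2
      rw [h3, h4, ← h1, ← h2', ← h1]
      group

theorem relY {j k : ℕ} (h : j < k) : Y k * Y j = Y j * Y (k + 1) := by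
  obtain ⟨d, rfl⟩ : ∃ d, k = j + d + 1 := ⟨k - j - 1, by omega⟩
  have := step d j
  rw [show j + d + 1 + 1 = j + d + 2 from rfl, ← this]
  group

/-- the elements `xₙ` -/
def x : ℕ → F
  | 0 => a
  | n + 1 => Y n

theorem rel {k n : ℕ} (h : k < n) : x n * x k = x k * x (n + 1) := by
  obtain ⟨n, rfl⟩ : ∃ m, n = m + 1 := ⟨n - 1, by omega⟩
  rcases k with _ | k
  · show Y n * a = a * Y (n + 1)
    have := conjA 1 n
    rw [pow_one] at this
    rw [← this]; group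
  · exact relY (by omega)

/-- the two generators generate -/
theorem closure_gen : Subgroup.closure {x 0, x 1} = (⊤ : Subgroup F) := by
  have h := PresentedGroup.closure_range_of rels
  rw [eq_top_iff, ← h]
  apply (Subgroup.closure_le _).2
  rintro _ ⟨i, rfl⟩
  apply Subgroup.subset_closure
  have hb : x 1 = b := by show Y 0 = b; simp [Y]
  fin_cases i
  · exact Or.inl rfl
  · right; rw [hb]; rfl

/-! ### a criterion for the relators -/

/-- elements satisfying the infinite family of relations give a homomorphism -/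
theorem rels_of {H : Type} [Group H] (E : ℕ → H) (hE : ∀ k n, k < n → E n * E k = E k * E (n + 1)) :
    ∀ r ∈ rels, FreeGroup.lift (fun i : Fin 2 => E i) r = 1 := by
  have h2 : (E 0)⁻¹ * E 1 * E 0 = E 2 := by
    rw [mul_assoc, hE 0 1 (by omega)]; group
  have h3 : (E 0)⁻¹ * (E 0)⁻¹ * E 1 * E 0 * E 0 = E 3 := by
    have e : (E 0)⁻¹ * (E 0)⁻¹ * E 1 * E 0 * E 0 = (E 0)⁻¹ * ((E 0)⁻¹ * E 1 * E 0) * E 0 := by group
    rw [e, h2, mul_assoc, hE 0 2 (by omega)]; group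
  have key : ∀ n, 2 ≤ n → E 0 * (E 1)⁻¹ * E n = E n * (E 0 * (E 1)⁻¹) := by
    intro n hn
    have e1 : (E 1)⁻¹ * E n = E (n + 1) * (E 1)⁻¹ := by
      rw [inv_mul_eq_iff_eq_mul, ← mul_assoc, ← hE 1 n (by omega), mul_inv_cancel_right]
    rw [mul_assoc, e1, ← mul_assoc, ← hE 0 n (by omega), mul_assoc]
  intro r hr
  rcases hr with rfl | rfl
  · simp only [cm, map_mul, map_inv, FreeGroup.lift_apply_of, Fin.val_zero, Fin.val_one]
    have := eq_comm' (key 2 (le_refl _))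
    rw [← h2] at this
    exact this
  · simp only [cm, map_mul, map_inv, FreeGroup.lift_apply_of, Fin.val_zero, Fin.val_one]
    have := eq_comm' (key 3 (by omega))
    rw [← h3] at this
    exact this

end Pool.Agent.Q27.TF
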