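import Pool.Agent.Q27.TF.Blk

/-!
# Values of words
-/

namespace Pool.Agent.Q27.TF

/-- letters of the tape: opening bracket of the second forest, opening bracket of the first forest,
leaf -/
inductive Lt where
  | o : Lt
  | b : Lt
  | d : Lt
deriving DecidableEq

/-- the word of a block -/
def wd : Blk → List Lt
  | .lf a => List.replicate a .b ++ [.d]
  | .nd A B => .o :: (wd A ++ wd B)

/-- number of leaves -/
def nl : Blk → ℕ
  | .lf _ => 1
  | .nd A B => nl A + nl B

/-- first factor of the value -/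
def pv : ℕ → List Lt → F
  | _, [] => 1
  | i, .b :: w => x i * pv i w
  | i, .o :: w => pv i w
  | i, .d :: w => pv (i + 1) w

/-- second factor of the value -/
def qv : ℕ → List Lt → F
  | _, [] => 1
  | i, .b :: w => qv i w
  | i, .o :: w => x i * qv i w
  | i, .d :: w => qv (i + 1) w

/-- the value of a word -/
def val (w : List Lt) : F := pv 0 w * (qv 0 w)⁻¹

theorem nl_pos (B : Blk) : 1 ≤ nl B := by
  induction B with
  | lf a => simp [nl]
  | nd A B h1 h2 => simp only [nl]; omega

/-- index after the word -/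
def ix : ℕ → List Lt → ℕ
  | i, [] => i
  | i, .d :: w => ix (i + 1) w
  | i, .b :: w => ix i w
  | i, .o :: w => ix i w

theorem pv_append (i : ℕ) (u w : List Lt) : pv i (u ++ w) = pv i u * pv (ix i u) w := by
  induction u generalizing i with
  | nil => simp [pv, ix]
  | cons c u ih => cases c <;> simp [pv, ix, ih, mul_assoc]

theorem qv_append (i : ℕ) (u w : List Lt) : qv i (u ++ w) = qv i u * qv (ix i u) w := by
  induction u generalizing i with
  | nil => simp [qv, ix]
  | cons c u ih => cases c <;> simp [qv, ix, ih, mul_assoc]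

theorem ix_append (i : ℕ) (u w : List Lt) : ix i (u ++ w) = ix (ix i u) w := by
  induction u generalizing i with
  | nil => rfl
  | cons c u ih => cases c <;> simp [ix, ih]

theorem ix_wd (i : ℕ) (B : Blk) : ix i (wd B) = i + nl B := by
  induction B generalizing i with
  | lf a =>
    simp only [wd, nl]
    induction a with
    | zero => rfl
    | succ a ih => rw [List.replicate_succ]; exact ih
  | nd A B h1 h2 =>
    simp only [wd, nl, ix]
    rw [ix_append, h1, h2]; omega

theorem pv_shift {k j : ℕ} (h : k < j) (w : List Lt) : pv j w * x k = x k * pv (j + 1) w := by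
  induction w generalizing j with
  | nil => simp [pv]
  | cons c w ih =>
    cases c with
    | o => exact ih h
    | d => exact ih (by omega)
    | b =>
      simp only [pv]
      rw [mul_assoc, ih h, ← mul_assoc, ← mul_assoc, rel h]

theorem qv_shift {k j : ℕ} (h : k < j) (w : List Lt) : qv j w * x k = x k * qv (j + 1) w := by
  induction w generalizing j with
  | nil => simp [qv]
  | cons c w ih =>
    cases c with
    | b => exact ih h
    | d => exact ih (by omega)
    | o =>
      simp only [qv]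
      rw [mul_assoc, ih h, ← mul_assoc, ← mul_assoc, rel h]

theorem qv_rep (i a : ℕ) (w : List Lt) : qv i (List.replicate a .b ++ w) = qv i w := by
  induction a with
  | zero => rfl
  | succ a ih => rw [List.replicate_succ]; exact ih

theorem pv_rep (i a : ℕ) (w : List Lt) : pv i (List.replicate a .b ++ w) = x i ^ a * pv i w := by
  induction a with
  | zero => simp
  | succ a ih =>
    rw [List.replicate_succ, List.cons_append]
    simp only [pv]
    rw [ih, ← mul_assoc, pow_succ']

/-- the carets of a block move to the left -/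
theorem x_qv {m i : ℕ} (h : i < m) (B : Blk) :
    x m * qv i (wd B) = qv i (wd B) * x (m + nl B - 1) := by
  induction B generalizing m i with
  | lf a =>
    simp only [wd, nl, qv_rep]
    simp [qv]
  | nd A B h1 h2 =>
    simp only [wd, nl, qv]
    have p1 := nl_pos A
    have p2 := nl_pos B
    rw [qv_append, ix_wd, ← mul_assoc, rel h, mul_assoc, ← mul_assoc (x (m + 1)),
      h1 (by omega), mul_assoc (qv i (wd A)), h2 (by omega)]
    rw [show m + 1 + nl A - 1 + nl B - 1 = m + (nl A + nl B) - 1 by omega]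
    group

/-- the value at the index `l` -/
def vl (l : ℕ) (w : List Lt) : F := pv l w * (qv l w)⁻¹

theorem vl_split (l : ℕ) (B : Blk) (v : List Lt) :
    vl l (wd B.s1 ++ (wd B.s2 ++ v)) = vl l (wd B ++ v) * x l := by
  unfold vl
  cases B with
  | nd A B =>
    simp only [Blk.s1, Blk.s2, wd, List.cons_append, pv, qv, List.append_assoc]
    group
  | lf a =>
    simp only [Blk.s1, Blk.s2, wd]
    have e1 : List.replicate (a + 1) Lt.b ++ [Lt.d] ++ (List.replicate 0 Lt.b ++ [Lt.d] ++ v) =
        List.replicate (a + 1) Lt.b ++ (Lt.d :: Lt.d :: v) := by simp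
    have e2 : List.replicate a Lt.b ++ [Lt.d] ++ v = List.replicate a Lt.b ++ (Lt.d :: v) := by simp
    rw [e1, e2, pv_rep, pv_rep, qv_rep, qv_rep]
    simp only [pv, qv]
    have h1 := pv_shift (show l < l + 1 by omega) v
    have h2 := qv_shift (show l < l + 1 by omega) v
    have h3 : qv (l + 1 + 1) v = (x l)⁻¹ * (qv (l + 1) v * x l) := by rw [h2]; group
    have h4 : pv (l + 1 + 1) v = (x l)⁻¹ * (pv (l + 1) v * x l) := by rw [h1]; group
    rw [h3, h4, pow_succ]
    group

theorem vl_append (l : ℕ) (u w : List Lt) :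
    vl l (u ++ w) = pv l u * vl (ix l u) w * (qv l u)⁻¹ := by
  unfold vl
  rw [pv_append, qv_append]
  group

/-- the word of a list of blocks -/
def wl (bs : List Blk) : List Lt := bs.flatMap wd

theorem val_split0 (B : Blk) (r : List Blk) :
    val (wl (B.s1 :: B.s2 :: r)) = val (wl (B :: r)) * x 0 := by
  simp only [wl, List.flatMap_cons]
  exact vl_split 0 B _

theorem val_split1 (B0 B : Blk) (r : List Blk) :
    val (wl (B0 :: B.s1 :: B.s2 :: r)) = val (wl (B0 :: B :: r)) * x 1 := by
  simp only [wl, List.flatMap_cons]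
  show vl 0 _ = vl 0 _ * x 1
  rw [vl_append 0 (wd B0), vl_append 0 (wd B0), ix_wd, vl_split]
  have h := x_qv (show 0 < 1 by omega) B0
  rw [show 1 + nl B0 - 1 = 0 + nl B0 by omega] at h
  have h1 : x (0 + nl B0) * (qv 0 (wd B0))⁻¹ = (qv 0 (wd B0))⁻¹ * x 1 := by
    rw [mul_inv_eq_iff_eq_mul, mul_assoc, h]; group
  rw [mul_assoc, mul_assoc, h1]
  group

theorem val_snoc (w : List Lt) : val (w ++ [.d]) = val w := by
  unfold val
  rw [pv_append, qv_append]
  simp [pv, qv]

/-! ### values of sequences -/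

/-- the first `M` blocks -/
def bl (ω : Om) (M : ℕ) : List Blk := (List.range M).map (fun i => (ω i).1)

theorem bl_succ (ω : Om) (M : ℕ) : bl ω (M + 1) = bl ω M ++ [(ω M).1] := by
  unfold bl
  rw [List.range_succ, List.map_append]; rfl

theorem bl_cons (ω : Om) (M : ℕ) : bl ω (M + 1) = (ω 0).1 :: bl (fun i => ω (i + 1)) M := by
  unfold bl
  rw [List.range_succ_eq_map, List.map_cons, List.map_map]; rfl

theorem bl_spl0 (ω : Om) (m : ℕ) : bl ω (m + 1) = (ω 0).1 :: bl (fun i => ω (i + 1)) m ∧
    bl (spl 0 ω) (m + 2) = (ω 0).1.s1 :: (ω 0).1.s2 :: bl (fun i => ω (i + 1)) m := by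
  refine ⟨bl_cons _ _, ?_⟩
  rw [bl_cons, bl_cons, spl_eq]
  congr 1

theorem bl_spl1 (ω : Om) (m : ℕ) :
    bl ω (m + 2) = (ω 0).1 :: (ω 1).1 :: bl (fun i => ω (i + 2)) m ∧
    bl (spl 1 ω) (m + 3) = (ω 0).1 :: (ω 1).1.s1 :: (ω 1).1.s2 :: bl (fun i => ω (i + 2)) m := by
  refine ⟨by rw [bl_cons, bl_cons], ?_⟩
  rw [bl_cons, bl_cons, bl_cons, spl_lt (by omega)]
  congr 1

theorem val_spl (ω : Om) (j m : ℕ) (hj : j < 2) :
    val (wl (bl (spl j ω) (m + 3))) = val (wl (bl ω (m + 2))) * x j := by
  interval_cases j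
  · obtain ⟨h1, h2⟩ := bl_spl0 ω (m + 1)
    rw [h1, h2]
    exact val_split0 _ _
  · obtain ⟨h1, h2⟩ := bl_spl1 ω m
    rw [h1, h2]
    exact val_split1 _ _ _

/-- the sequence is trivial from `N` on -/
def Triv (ω : Om) (N : ℕ) : Prop := ∀ i, N ≤ i → (ω i).1 = .lf 0

theorem val_ext {ω : Om} {N : ℕ} (h : Triv ω N) (k : ℕ) :
    val (wl (bl ω (N + k))) = val (wl (bl ω N)) := by
  induction k with
  | zero => rfl
  | succ k ih =>
    rw [← add_assoc, bl_succ, h (N + k) (by omega)]
    unfold wl at ih ⊢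
    rw [List.flatMap_append]
    have e : List.flatMap wd [Blk.lf 0] = [Lt.d] := rfl
    rw [e, val_snoc, ih]

theorem triv_spl {ω : Om} {N j : ℕ} (hj : j < 2) (h : Triv ω N) : Triv (spl j ω) (N + 3) := by
  intro i hi
  rw [spl_gt (by omega)]
  exact h _ (by omega)

theorem triv_joi {ω : Om} {N j : ℕ} (hj : j < 2) (h : Triv ω N) : Triv (joi j ω) (N + 3) := by
  intro i hi
  rw [joi_gt (by omega)]
  exact h _ (by omega)

/-- **The element is the value of its normal form.** -/
theorem main (g : F) : ∃ N, Triv (nf g) N ∧ ∀ M, N ≤ M → val (wl (bl (nf g) M)) = g := by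
  have hg : g ∈ Subgroup.closure {x 0, x 1} := by rw [closure_gen]; trivial
  have step1 : ∀ (g : F) (j : ℕ), j < 2 →
      (∃ N, Triv (nf g) N ∧ ∀ M, N ≤ M → val (wl (bl (nf g) M)) = g) →
      ∃ N, Triv (nf (g * x j)) N ∧ ∀ M, N ≤ M → val (wl (bl (nf (g * x j)) M)) = g * x j := by
    rintro g j hj ⟨N, h1, h2⟩
    rw [nf_mul g j hj]
    refine ⟨N + 3, triv_spl hj h1, fun M hM => ?_⟩
    obtain ⟨m, rfl⟩ : ∃ m, M = m + 3 := ⟨M - 3, by omega⟩
    rw [val_spl _ _ _ hj, h2 _ (by omega)]
  have step2 : ∀ (g : F) (j : ℕ), j < 2 →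
      (∃ N, Triv (nf g) N ∧ ∀ M, N ≤ M → val (wl (bl (nf g) M)) = g) →
      ∃ N, Triv (nf (g * (x j)⁻¹)) N ∧
        ∀ M, N ≤ M → val (wl (bl (nf (g * (x j)⁻¹)) M)) = g * (x j)⁻¹ := by
    rintro g j hj ⟨N, h1, h2⟩
    rw [nf_mul_inv g j hj]
    refine ⟨N + 3, triv_joi hj h1, fun M hM => ?_⟩
    obtain ⟨m, rfl⟩ : ∃ m, M = m + 2 := ⟨M - 2, by omega⟩
    have h3 := val_spl (joi j (nf g)) j m hj
    have h4 : spl j (joi j (nf g)) = nf g := (ek j).right_inv (nf g)
    rw [h4, h2 _ (by omega)] at h3
    exact eq_mul_inv_of_mul_eq h3.symm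
  induction hg using Subgroup.closure_induction_right with
  | one =>
    refine ⟨0, fun i _ => by rw [nf_one]; rfl, fun M _ => ?_⟩
    rw [nf_one]
    have h := val_ext (ω := base) (N := 0) (fun i _ => rfl) M
    rw [zero_add] at h
    rw [h]
    simp [bl, wl, val, pv, qv]
  | mul_right g _ y hy ih =>
    rcases hy with rfl | hy
    · exact step1 g 0 (by omega) ih
    · rw [Set.mem_singleton_iff] at hy
      subst hy
      exact step1 g 1 (by omega) ih
  | mul_inv_cancel g _ y hy ih =>
    rcases hy with rfl | hy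
    · exact step2 g 0 (by omega) ih
    · rw [Set.mem_singleton_iff] at hy
      subst hy
      exact step2 g 1 (by omega) ih

end Pool.Agent.Q27.TF
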